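import Pool.Agent.N6.A.Coh
import Pool.Agent.Y417.FJ.Am

/-!
# Artin groups as amalgamated products of standard parabolic subgroups
-/

set_option autoImplicit false

namespace Pool.Agent.N6.A

open Pool.Agent.Y110.FJ
open Pool.Agent.Y462.SS (Closed)
open Pool.Agent.N24.FV (FVF actF fvf_mem)
open Pool.Agent.N77.CX (rest cmap cmap_simple cmap_injective taut taut_simple C_taut)
open Pool.Agent.Helper741 (Artin alt map_alt alt_zero alt_succ alt_succ')

variable {C : ∀ (G : Type) [Group G], Prop}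

section ret

variable {B : Type} {M : CoxeterMatrix B}

theorem app_inv (τ : Equiv.Perm B) (x : B) : τ (τ⁻¹ x) = x := τ.apply_symm_apply x

theorem zpow_inv (τ : Equiv.Perm B) (hτ : ∀ x y, M (τ x) (τ y) = M x y) (n : ℤ) (x y : B) :
    M ((τ ^ n) x) ((τ ^ n) y) = M x y := by
  induction n generalizing x y with
  | zero => rfl
  | succ n ih => rw [zpow_add_one, Equiv.Perm.mul_apply, Equiv.Perm.mul_apply, ih, hτ]
  | pred n ih =>
    rw [zpow_sub_one, Equiv.Perm.mul_apply, Equiv.Perm.mul_apply, ih]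
    have h := hτ (τ⁻¹ x) (τ⁻¹ y)
    rw [app_inv, app_inv] at h
    exact h.symm

theorem taut_inv_simple (τ : Equiv.Perm B) (hτ : ∀ x y, M (τ x) (τ y) = M x y) (s : B) :
    ((taut τ hτ)⁻¹ : MulAut M.Group) (M.toCoxeterSystem.simple s) =
      M.toCoxeterSystem.simple (τ⁻¹ s) := by
  rw [MulAut.inv_apply, MulEquiv.symm_apply_eq, taut_simple, app_inv]

theorem taut_zpow_simple (τ : Equiv.Perm B) (hτ : ∀ x y, M (τ x) (τ y) = M x y) (n : ℤ) (s : B) :
    (taut τ hτ ^ n) (M.toCoxeterSystem.simple s) = M.toCoxeterSystem.simple ((τ ^ n) s) := by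
  induction n generalizing s with
  | zero => rfl
  | succ n ih =>
    rw [zpow_add_one, MulAut.mul_apply, taut_simple, ih, zpow_add_one, Equiv.Perm.mul_apply]
  | pred n ih =>
    rw [zpow_sub_one, MulAut.mul_apply, taut_inv_simple, ih, zpow_sub_one, Equiv.Perm.mul_apply]

/-- **retractions on finite standard parabolic subgroups, up to a group of the form `FVF ⋊ W ⋊ ℤ`** -/
theorem ex_ret (hC : ClosedE C) (X : Set B) [Finite X] (τ : Equiv.Perm B)
    (hτ : ∀ x y, M (τ x) (τ y) = M x y)
    (hW : C (Pool.Agent.N77.GP.MT M.Group (taut τ hτ))) (hX : C (Artin (rest M X))) :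
    ∃ (P : Type) (_ : Group P) (F : Artin M →* P) (p : P), C P ∧
      (∀ y : Artin (rest M X), F (inc M X y) = 1 → y = 1) ∧
      ∀ g, F (amap τ hτ g) = p * F g * p⁻¹ := by
  let _ : MulAction (Multiplicative ℤ) B := MulAction.compHom B (zpowersHom (Equiv.Perm B) τ)
  have hsm : ∀ (q : Multiplicative ℤ) (x : B), q • x = (τ ^ (Multiplicative.toAdd q)) x := fun _ _ => rfl
  have hM : ∀ (q : Multiplicative ℤ) (x y : B), M (q • x) (q • y) = M x y := by
    intro q x y
    rw [hsm, hsm, zpow_inv τ hτ]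
  have hφ : ∀ (q : Multiplicative ℤ) (s : B), zpowersHom (MulAut M.Group) (taut τ hτ) q
      (M.toCoxeterSystem.simple s) = M.toCoxeterSystem.simple (q • s) := by
    intro q s
    rw [zpowersHom_apply, hsm, taut_zpow_simple]
  refine ⟨PP M X (zpowersHom (MulAut M.Group) (taut τ hτ)), inferInstance,
    Fh M X hM _ hφ, SemidirectProduct.inr (SemidirectProduct.inr (Multiplicative.ofAdd 1)),
    fvf_mem hC _ _ _ hX hW, Fh_inj M X hM _ hφ, fun g => ?_⟩
  rw [← Fh_conj M X hM _ hφ]
  congr 2

/-- **van der Lek's theorem** for finite subsets -/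
theorem inc_injective_fin (X : Set B) [Finite X] : Function.Injective (inc M X) := by
  rw [injective_iff_map_eq_one]
  intro y hy
  let _ : MulAction (Multiplicative ℤ) B :=
    MulAction.compHom B (zpowersHom (Equiv.Perm B) (1 : Equiv.Perm B))
  have hsm : ∀ (q : Multiplicative ℤ) (x : B), q • x = x := by
    intro q x
    show (zpowersHom (Equiv.Perm B) (1 : Equiv.Perm B) q) x = x
    rw [zpowersHom_apply, one_zpow]
    rfl
  have hM : ∀ (q : Multiplicative ℤ) (x y : B), M (q • x) (q • y) = M x y := by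
    intro q x y
    rw [hsm, hsm]
  have hφ : ∀ (q : Multiplicative ℤ) (s : B), (1 : Multiplicative ℤ →* MulAut M.Group) q
      (M.toCoxeterSystem.simple s) = M.toCoxeterSystem.simple (q • s) := by
    intro q s
    rw [hsm]
    rfl
  exact Fh_inj M X hM 1 hφ y (by rw [hy, map_one])

end ret

/-! ### the global inversion -/

section inversion

theorem alt_inv {G : Type} [Group G] (a b : G) (m : ℕ) :
    (alt a b m)⁻¹ = if Even m then alt b⁻¹ a⁻¹ m else alt a⁻¹ b⁻¹ m := by
  induction m with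
  | zero => simp
  | succ m ih =>
    rw [alt_succ', mul_inv_rev, ih]
    by_cases hm : Even m
    · have hm' : ¬ Even (m + 1) := by simpa [Nat.even_add_one] using hm
      rw [if_pos hm, if_pos hm, if_neg hm', alt_succ]
    · have hm' : Even (m + 1) := by simpa [Nat.even_add_one] using hm
      rw [if_neg hm, if_neg hm, if_pos hm', alt_succ]

theorem alt_inv_comm {G : Type} [Group G] {a b : G} {m : ℕ} (h : alt a b m = alt b a m) :
    alt a⁻¹ b⁻¹ m = alt b⁻¹ a⁻¹ m := by
  have h1 := alt_inv a b m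
  have h2 := alt_inv b a m
  rw [h] at h1
  by_cases hm : Even m
  · rw [if_pos hm] at h1 h2
    rw [← h2, h1]
  · rw [if_neg hm] at h1 h2
    rw [← h1, h2]

variable {B : Type}

/-- the endomorphism `σ ↦ σ ^ e` for `e = ±1`, here `e = 1` for `true` and `e = -1` for `false` -/
def sgn (M : CoxeterMatrix B) : Bool → (Artin M →* Artin M)
  | true => MonoidHom.id _
  | false => Artin.lift (fun i => (Artin.gen M i)⁻¹) (fun i j => alt_inv_comm (Artin.rel i j))

/-- the sign -/
def sgz (e : Bool) : ℤ := if e then 1 else -1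

theorem sgn_gen (M : CoxeterMatrix B) (e : Bool) (i : B) :
    sgn M e (Artin.gen M i) = (Artin.gen M i) ^ (sgz e) := by
  cases e with
  | true => simp [sgn, sgz]
  | false => exact (Artin.lift_gen (M := M) (fun i => (Artin.gen M i)⁻¹)
      (fun i j => alt_inv_comm (Artin.rel i j)) i).trans (by simp [sgz])

theorem sgn_sgn (M : CoxeterMatrix B) (x : Artin M) : sgn M false (sgn M false x) = x := by
  have h : (sgn M false).comp (sgn M false) = MonoidHom.id _ := by
    apply Artin.hom_ext
    intro i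
    rw [MonoidHom.comp_apply, sgn_gen, map_zpow, sgn_gen]
    simp [sgz]
  exact DFunLike.congr_fun h x

theorem amap_sgn {S T : Type} {M : CoxeterMatrix S} {M' : CoxeterMatrix T} (ι : S → T)
    (hι : ∀ x y, M' (ι x) (ι y) = M x y) (e : Bool) (x : Artin M) :
    amap ι hι (sgn M e x) = sgn M' e (amap ι hι x) := by
  have h : (amap ι hι).comp (sgn M e) = (sgn M' e).comp (amap ι hι) := by
    apply Artin.hom_ext
    intro i
    rw [MonoidHom.comp_apply, MonoidHom.comp_apply, sgn_gen, map_zpow, amap_gen, sgn_gen]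
  exact DFunLike.congr_fun h x

/-- the swap -/
def swp (P : Type) [Group P] : MulAut (P × P) := MulEquiv.prodComm

theorem ex_ret' {M : CoxeterMatrix B} (hC : ClosedE C) (X : Set B) [Finite X] (τ : Equiv.Perm B)
    (hτ : ∀ x y, M (τ x) (τ y) = M x y)
    (hW : C (Pool.Agent.N77.GP.MT M.Group (taut τ hτ))) (hX : C (Artin (rest M X))) (e : Bool) :
    ∃ (P : Type) (_ : Group P) (F : Artin M →* P) (p : P), C P ∧
      (∀ y : Artin (rest M X), F (inc M X y) = 1 → y = 1) ∧
      ∀ g, F (amap τ hτ (sgn M e g)) = p * F g * p⁻¹ := by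
  obtain ⟨P, _, F, p, hP, hF, hp⟩ := ex_ret hC X τ hτ hW hX
  cases e with
  | true => exact ⟨P, inferInstance, F, p, hP, hF, hp⟩
  | false =>
    have h2 : swp P ^ 2 = 1 := by
      ext x
      · rfl
      · rfl
    refine ⟨Pool.Agent.N77.GP.MT (P × P) (swp P), inferInstance,
      (Pool.Agent.N77.GP.il (swp P)).comp (F.prod (F.comp (sgn M false))),
      Pool.Agent.N77.GP.il (swp P) (p, p) * Pool.Agent.N77.GP.tt (swp P), ?_, ?_, ?_⟩
    · refine Pool.Agent.N77.GP.mt_pow hC.base (k := 2) (by norm_num) ?_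
      rw [h2]
      exact Pool.Agent.N77.GP.mt_one hC.base (hC.base.prod _ _ hP hP)
    · intro y hy
      have h3 : F.prod (F.comp (sgn M false)) (inc M X y) = 1 :=
        SemidirectProduct.inl_injective (hy.trans (map_one _).symm)
      exact hF y (congrArg Prod.fst h3)
    · intro g
      have h4 : Pool.Agent.N77.GP.il (swp P) (p, p) * Pool.Agent.N77.GP.tt (swp P) *
          Pool.Agent.N77.GP.il (swp P) (F g, F (sgn M false g)) *
          (Pool.Agent.N77.GP.il (swp P) (p, p) * Pool.Agent.N77.GP.tt (swp P))⁻¹ =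
          Pool.Agent.N77.GP.il (swp P) (p, p) * (Pool.Agent.N77.GP.tt (swp P) *
          Pool.Agent.N77.GP.il (swp P) (F g, F (sgn M false g)) *
          (Pool.Agent.N77.GP.tt (swp P))⁻¹) * (Pool.Agent.N77.GP.il (swp P) (p, p))⁻¹ := by
        group
      show Pool.Agent.N77.GP.il (swp P) (F _, F _) = Pool.Agent.N77.GP.il (swp P) (p, p) *
        Pool.Agent.N77.GP.tt (swp P) * Pool.Agent.N77.GP.il (swp P) (F g, F (sgn M false g)) * _
      rw [h4, Pool.Agent.N77.GP.tt_conj, ← map_inv, ← map_mul, ← map_mul]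
      congr 1
      refine Prod.ext ?_ ?_
      · exact hp _
      · show F (sgn M false (amap τ hτ (sgn M false g))) = p * F g * p⁻¹
        rw [← amap_sgn, sgn_sgn, hp]

end inversion

section amalg

variable {B : Type} {M : CoxeterMatrix B}

/-- standard parabolic subgroups -/
def pr (M : CoxeterMatrix B) (X : Set B) : Subgroup (Artin M) := (inc M X).range

theorem gen_mem {X : Set B} {x : B} (hx : x ∈ X) : Artin.gen M x ∈ pr M X :=
  ⟨Artin.gen (rest M X) ⟨x, hx⟩, inc_gen M X _⟩

theorem pr_le {X : Set B} {S : Subgroup (Artin M)} (h : ∀ x ∈ X, Artin.gen M x ∈ S) : pr M X ≤ S := by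
  rintro _ ⟨y, rfl⟩
  induction y using Artin.induction with
  | one => simp
  | gen i => rw [inc_gen]; exact h _ i.2
  | mul x y hx hy => rw [map_mul]; exact mul_mem hx hy
  | inv x hx => rw [map_inv]; exact inv_mem hx

theorem pr_mono {X Y : Set B} (h : X ⊆ Y) : pr M X ≤ pr M Y := pr_le fun _ hx => gen_mem (h hx)

theorem pr_hom_eq {X : Set B} {H : Type} [Group H] (f g : pr M X →* H)
    (h : ∀ x (hx : x ∈ X), f ⟨Artin.gen M x, gen_mem hx⟩ = g ⟨Artin.gen M x, gen_mem hx⟩) (a : pr M X) :
    f a = g a := by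
  obtain ⟨a, ⟨y, rfl⟩⟩ := a
  obtain ⟨ρ, hρ⟩ : ∃ ρ : Artin (rest M X) →* pr M X, ∀ z, (ρ z : Artin M) = inc M X z :=
    ⟨(inc M X).rangeRestrict, fun _ => rfl⟩
  have h1 : f.comp ρ = g.comp ρ := by
    apply Artin.hom_ext
    intro i
    have h2 := h i.1 i.2
    have h3 : ρ (Artin.gen (rest M X) i) = ⟨Artin.gen M i.1, gen_mem i.2⟩ :=
      Subtype.ext ((hρ _).trans (inc_gen M X i))
    rw [MonoidHom.comp_apply, MonoidHom.comp_apply, h3]
    exact h2
  have h4 : ρ y = ⟨inc M X y, ⟨y, rfl⟩⟩ := Subtype.ext (hρ y)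
  rw [← h4]
  exact DFunLike.congr_fun h1 y

theorem sub_alt {S : Subgroup (Artin M)} {H : Type} [Group H] (f : S →* H) (a b : S) (m : ℕ)
    (h : alt (a : Artin M) (b : Artin M) m = alt (b : Artin M) (a : Artin M) m) :
    alt (f a) (f b) m = alt (f b) (f a) m := by
  rw [← map_alt, ← map_alt]
  congr 1
  apply Subtype.ext
  have h1 := map_alt S.subtype a b m
  have h2 := map_alt S.subtype b a m
  exact h1.trans (h.trans h2.symm)

theorem amg {s t : B} (hst : s ≠ t) (h0 : M s t = 0) :
    Amg (pr M {x | x ≠ t}) (pr M {x | x ≠ s}) (pr M {x | x ≠ s ∧ x ≠ t}) where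
  le_left := pr_mono fun x hx => hx.2
  le_right := pr_mono fun x hx => hx.1
  gen := by
    rw [eq_top_iff, ← Artin.closure_range_gen, Subgroup.closure_le]
    rintro _ ⟨i, rfl⟩
    by_cases hi : i = t
    · exact (le_sup_right : pr M {x | x ≠ s} ≤ _) (gen_mem (show i ≠ s by rw [hi]; exact hst.symm))
    · exact (le_sup_left : pr M {x | x ≠ t} ≤ _) (gen_mem hi)
  univ := by
    classical
    intro H _ f g hfg
    have hts : t ≠ s := hst.symm
    let F : B → H := fun i => if hi : i = t then g ⟨Artin.gen M t, gen_mem hts⟩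
      else f ⟨Artin.gen M i, gen_mem hi⟩
    have hF1 : ∀ i (hi : i ≠ t), F i = f ⟨Artin.gen M i, gen_mem hi⟩ := fun i hi => dif_neg hi
    have hF2 : ∀ i (hi : i ≠ s), F i = g ⟨Artin.gen M i, gen_mem hi⟩ := by
      intro i hi
      by_cases hit : i = t
      · subst hit
        exact dif_pos rfl
      · rw [hF1 i hit]
        exact hfg _ (gen_mem ⟨hi, hit⟩)
    have hrel : ∀ i j, alt (F i) (F j) (M i j) = alt (F j) (F i) (M i j) := by
      intro i j
      by_cases hit : i = t
      · by_cases hjs : j = s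
        · rw [hit, hjs, M.symmetric, h0, alt_zero, alt_zero]
        · rw [hF2 i (by rw [hit]; exact hts), hF2 j hjs]
          exact sub_alt g _ _ _ (Artin.rel i j)
      · by_cases hjt : j = t
        · by_cases his : i = s
          · rw [hjt, his, h0, alt_zero, alt_zero]
          · rw [hF2 i his, hF2 j (by rw [hjt]; exact hts)]
            exact sub_alt g _ _ _ (Artin.rel i j)
        · rw [hF1 i hit, hF1 j hjt]
          exact sub_alt f _ _ _ (Artin.rel i j)
    refine ⟨Artin.lift F hrel, ?_, ?_⟩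
    · refine pr_hom_eq ((Artin.lift F hrel).comp (pr M {x | x ≠ t}).subtype) f ?_
      intro x hx
      show Artin.lift F hrel (Artin.gen M x) = _
      rw [Artin.lift_gen, hF1 x hx]
    · refine pr_hom_eq ((Artin.lift F hrel).comp (pr M {x | x ≠ s}).subtype) g ?_
      intro x hx
      show Artin.lift F hrel (Artin.gen M x) = _
      rw [Artin.lift_gen, hF2 x hx]

end amalg

theorem am_step (hC : ClosedE C) {B : Type} [Finite B] {M : CoxeterMatrix B} (hW : C M.Group)
    {s t : B} (hst : s ≠ t) (h0 : M s t = 0) (h1 : C (Artin (rest M {x | x ≠ t})))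
    (h2 : C (Artin (rest M {x | x ≠ s}))) : C (Artin M) := by
  have hτ : ∀ x y : B, M ((1 : Equiv.Perm B) x) ((1 : Equiv.Perm B) y) = M x y := fun _ _ => rfl
  obtain ⟨P1, _, F1, -, hP1, hF1, -⟩ := ex_ret hC {x | x ≠ t} 1 hτ (C_taut hC hW 1 hτ) h1
  obtain ⟨P2, _, F2, -, hP2, hF2, -⟩ := ex_ret hC {x | x ≠ s} 1 hτ (C_taut hC hW 1 hτ) h2
  refine Pool.Agent.Y417.FJ.t_am (Pool.Agent.Y961.FJ.t_perm Pool.Agent.Y529.FJ.t_ext) C hC
    (Artin M) (P1 × P2) _ _ _ (amg hst h0) (F1.prod F2) ?_ ?_ (hC.base.prod _ _ hP1 hP2)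
  · rintro _ ⟨y, rfl⟩ h
    rw [hF1 y (congrArg Prod.fst h), map_one]
  · rintro _ ⟨y, rfl⟩ h
    rw [hF2 y (congrArg Prod.snd h), map_one]

/-- the case of finite rank -/
theorem fin_main (hC : ClosedE C) (hcox : ∀ (S : Type) (_ : Finite S) (A : CoxeterMatrix S), C A.Group)
    (n : ℕ) (B : Type) [Finite B] (hn : Nat.card B = n) (M : CoxeterMatrix B)
    (h : ∀ (K : Type) (_ : Finite K) (e : K → B) (_ : Function.Injective e) (N : CoxeterMatrix K)
      (_ : ∀ x y, M (e x) (e y) = N x y), (∀ x y, N x y ≠ 0) → C (Artin N)) : C (Artin M) := by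
  induction n using Nat.strong_induction_on generalizing B with
  | _ n ih =>
    by_cases h0 : ∃ s t, M s t = 0
    swap
    · push Not at h0
      exact h B inferInstance id Function.injective_id M (fun _ _ => rfl) h0
    obtain ⟨s, t, h0⟩ := h0
    have hst : s ≠ t := by
      intro hst
      rw [hst, M.diagonal] at h0
      exact one_ne_zero h0
    have hcard : ∀ r : B, Nat.card {x | x ≠ r} < n := by
      intro r
      rw [← hn]
      exact Finite.card_subtype_lt (p := fun x => x ≠ r) (x := r) (fun h => h rfl)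
    have hrec : ∀ r : B, C (Artin (rest M {x | x ≠ r})) := by
      intro r
      refine ih _ (hcard r) _ rfl _ ?_
      intro K _ e he N hN hN0
      refine h K inferInstance (fun x => (e x).1) (Subtype.val_injective.comp he) N (fun x y => ?_) hN0
      exact hN x y
    exact am_step hC (hcox B inferInstance M) hst h0 (hrec t) (hrec s)

end Pool.Agent.N6.A
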