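import Pool.Agent.N6.A.Min
import Pool.Agent.Helper741.Matsumoto
import Pool.Agent.N77.CX.Main

/-!
# The projection of galleries to a standard parabolic subgroup respects the braid relations
-/

set_option autoImplicit false

namespace Pool.Agent.N6.A

open Pool.Agent.R676.Cox
open Pool.Agent.N77.CX (rest cmap cmap_simple cmap_injective)
open Pool.Agent.Helper741 (Artin alt aw aw_prod aw_succ matsumoto)

variable {B W : Type} [Group W] {M : CoxeterMatrix B} (cs : CoxeterSystem M W) (X : Set B)

/-- the step from the shortest element `u` along `s` crosses a wall of the parabolic subgroup -/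
def Cr (u : W) (s : B) : Prop := ∃ x : X, cs.simple x.1 * u = u * cs.simple s

open Classical in
/-- the letters in `X` which are emitted by a gallery -/
noncomputable def el : W → List B → List X
  | _, [] => []
  | w, s :: l => (if h : Cr cs X (rep cs X w) s then [h.choose] else []) ++ el (w * cs.simple s) l

open Classical in
/-- the letter which is emitted by one step -/
noncomputable def em (w : W) (s : B) : Artin (rest M X) :=
  if h : Cr cs X (rep cs X w) s then Artin.gen (rest M X) h.choose else 1

/-- the product of the emitted letters -/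
noncomputable def E : W → List B → Artin (rest M X)
  | _, [] => 1
  | w, s :: l => em cs X w s * E (w * cs.simple s) l

variable {cs X}

theorem E_eq (w : W) (l : List B) : E cs X w l = ((el cs X w l).map (Artin.gen (rest M X))).prod := by
  induction l generalizing w with
  | nil => simp [E, el]
  | cons s l ih =>
    rw [E, el, List.map_append, List.prod_append, ← ih, em]
    split_ifs <;> simp

/-- the shortest element does not change when a wall of the parabolic subgroup is crossed -/
theorem rep_cr {w : W} {s : B} (h : Cr cs X (rep cs X w) s) : rep cs X (w * cs.simple s) = rep cs X w := by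
  obtain ⟨x, hx⟩ := h
  apply rep_eq (rep_mn w)
  rw [mul_inv_rev, cs.inv_simple, ← mul_assoc, ← hx, mul_assoc]
  exact mul_mem (simple_mem x.2) (rep_mem w)

theorem rep_not_cr {w : W} {s : B} (h : ¬ Cr cs X (rep cs X w) s) :
    rep cs X (w * cs.simple s) = rep cs X w * cs.simple s := by
  have h1 := (step (rep_mn (cs := cs) (X := X) w) s).resolve_right
    (fun ⟨x, hx, h2⟩ => h ⟨⟨x, hx⟩, h2⟩)
  apply rep_eq h1
  rw [mul_inv_rev, ← mul_assoc, mul_inv_cancel_right]
  exact rep_mem w

theorem prod_el (w : W) (l : List B) : cs.wordProd ((el cs X w l).map Subtype.val) =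
    rep cs X w * cs.wordProd l * (rep cs X (w * cs.wordProd l))⁻¹ := by
  induction l generalizing w with
  | nil => simp [el]
  | cons s l ih =>
    rw [el, List.map_append, cs.wordProd_append, ih, cs.wordProd_cons, mul_assoc w]
    split_ifs with h
    · rw [rep_cr h]
      simp only [List.map_cons, List.map_nil, cs.wordProd_singleton]
      rw [← mul_assoc, ← mul_assoc, ← mul_assoc, h.choose_spec]
      simp only [mul_assoc]
    · rw [rep_not_cr h]
      simp [mul_assoc]

theorem prod_el_mem (w : W) (l : List B) :
    cs.wordProd ((el cs X w l).map Subtype.val) ∈ WX cs X := by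
  generalize el cs X w l = L
  induction L with
  | nil => simp
  | cons x L ih =>
    rw [List.map_cons, cs.wordProd_cons]
    exact mul_mem (simple_mem x.2) ih

theorem isReduced_el (w : W) (l : List B) (hl : cs.IsReduced l) :
    cs.IsReduced ((el cs X w l).map Subtype.val) := by
  induction l generalizing w with
  | nil => simp [el, CoxeterSystem.IsReduced]
  | cons s l ih =>
    have hl' : cs.IsReduced l := by
      have := hl.drop 1
      simpa using this
    have ih' := ih (w * cs.simple s) hl'
    rw [el]
    split_ifs with h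
    swap
    · simpa using ih'
    simp only [List.map_cons, List.cons_append, List.nil_append]
    obtain ⟨L, hL⟩ : ∃ L, L = (el cs X (w * cs.simple s) l).map Subtype.val := ⟨_, rfl⟩
    obtain ⟨x, hx⟩ : ∃ x, x = h.choose := ⟨_, rfl⟩
    have hspec := h.choose_spec
    rw [← hx] at hspec
    rw [← hL] at ih' ⊢
    rw [← hx]
    unfold CoxeterSystem.IsReduced at ih' ⊢
    rw [cs.wordProd_cons, List.length_cons, ← ih']
    rcases cs.length_simple_mul (cs.wordProd L) x.1 with h1 | h1
    · exact h1
    exfalso
    have hmem : cs.wordProd L ∈ WX cs X := by rw [hL]; exact prod_el_mem _ _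
    have h2 : geo cs (cs.wordProd L)⁻¹ (ee x.1) ≤ 0 := by
      rw [geo_nonpos_iff]
      have e1 : (cs.wordProd L)⁻¹ * cs.simple x.1 = (cs.simple x.1 * cs.wordProd L)⁻¹ := by
        rw [mul_inv_rev, cs.inv_simple]
      rw [e1, cs.length_inv, cs.length_inv]
      omega
    have h3 := geo_neg (rep_mn (cs := cs) (X := X) (w * cs.simple s * cs.wordProd l)) hmem x.2 h2
    have h4 : cs.wordProd L * rep cs X (w * cs.simple s * cs.wordProd l) =
        rep cs X w * cs.wordProd l := by
      rw [hL, prod_el, inv_mul_cancel_right, rep_cr h]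
    rw [h4, mul_inv_rev, map_mul, Module.End.mul_apply] at h3
    obtain ⟨c, hc, h5⟩ := root (rep_mn (cs := cs) (X := X) w) x.2 hspec
    rw [h5, map_smul] at h3
    have h6 : geo cs (cs.wordProd l)⁻¹ (ee s) ≤ 0 := by
      intro j
      have h7 := h3 j
      rw [Finsupp.smul_apply, smul_eq_mul, Finsupp.zero_apply] at h7
      rw [Finsupp.zero_apply]
      exact nonpos_of_mul_nonpos_right h7 hc
    rw [geo_nonpos_iff] at h6
    have e2 : (cs.wordProd l)⁻¹ * cs.simple s = (cs.simple s * cs.wordProd l)⁻¹ := by
      rw [mul_inv_rev, cs.inv_simple]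
    rw [e2, cs.length_inv, cs.length_inv, ← cs.wordProd_cons] at h6
    have h8 := hl.eq
    have h9 := hl'.eq
    rw [List.length_cons] at h8
    omega

/-- words in `X` with equal products -/
theorem prod_gen_eq [Finite X] (L L' : List X) (h : cs.IsReduced (L.map Subtype.val))
    (h' : cs.IsReduced (L'.map Subtype.val))
    (heq : cs.wordProd (L.map Subtype.val) = cs.wordProd (L'.map Subtype.val)) :
    (L.map (Artin.gen (rest M X))).prod = (L'.map (Artin.gen (rest M X))).prod := by
  classical
  have : Fintype X := Fintype.ofFinite X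
  have hι : ∀ x y : X, M x.1 y.1 = rest M X x y := fun _ _ => rfl
  let ψ := cmap (rest M X).toCoxeterSystem cs Subtype.val hι
  have hψ : Function.Injective ψ := cmap_injective _ cs Subtype.val hι Subtype.val_injective
  have hw : ∀ L : List X, ψ ((rest M X).toCoxeterSystem.wordProd L) =
      cs.wordProd (L.map Subtype.val) := by
    intro L
    induction L with
    | nil => simp
    | cons x L ih =>
      rw [CoxeterSystem.wordProd_cons, map_mul, ih, List.map_cons, CoxeterSystem.wordProd_cons]
      congr 1
      exact cmap_simple _ _ _ _ _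
  have hr : ∀ L : List X, cs.IsReduced (L.map Subtype.val) →
      (rest M X).toCoxeterSystem.IsReduced L := by
    intro L hL
    obtain ⟨L', hL', hLL'⟩ :=
      (rest M X).toCoxeterSystem.exists_isReduced ((rest M X).toCoxeterSystem.wordProd L)
    have h1 := cs.length_wordProd_le (L'.map Subtype.val)
    rw [← hw, ← hLL', hw, hL.eq, List.length_map, List.length_map] at h1
    have h2 := (rest M X).toCoxeterSystem.length_wordProd_le L
    unfold CoxeterSystem.IsReduced at hL' ⊢
    rw [← hLL'] at hL'
    omega
  refine matsumoto (rest M X).toCoxeterSystem (Artin.gen (rest M X)) (fun i j => Artin.rel i j)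
    L L' (hr L h) (hr L' h') ?_
  apply hψ
  rw [hw, hw, heq]

theorem simple_alt_comm (s t : B) : alt (cs.simple s) (cs.simple t) (M s t) =
    alt (cs.simple t) (cs.simple s) (M s t) :=
  Pool.Agent.Helper741.alt_comm_of_pow (cs.simple_mul_simple_self s) (cs.simple_mul_simple_self t)
    (cs.simple_mul_simple_pow s t)

theorem isReduced_alternatingWord {i j : B} (hij : i ≠ j) {k : ℕ} (hk : M i j = 0 ∨ k ≤ M i j) :
    cs.IsReduced (CoxeterSystem.alternatingWord i j k) := by
  induction k generalizing i j with
  | zero =>
    unfold CoxeterSystem.IsReduced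
    simp [CoxeterSystem.alternatingWord]
  | succ k ih =>
    have hk' : M j i = 0 ∨ k + 1 ≤ M j i := by rwa [M.symmetric j i]
    have h1 : cs.IsReduced (CoxeterSystem.alternatingWord j i k) := ih hij.symm (by omega)
    unfold CoxeterSystem.IsReduced at h1 ⊢
    rw [CoxeterSystem.length_alternatingWord] at h1 ⊢
    rw [CoxeterSystem.alternatingWord_succ, cs.wordProd_concat]
    have h2 : 0 ≤ geo cs (cs.wordProd (CoxeterSystem.alternatingWord j i k)) (ee j) := by
      rw [geo_wordProd, prod_alt_ee]
      have q1 : 0 ≤ Pool.Agent.Helper741.qs (Pool.Agent.Helper741.cc M j i) (k + 1) :=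
        Pool.Agent.Helper741.qs_nonneg M hij.symm hk'
      have q2 : 0 ≤ Pool.Agent.Helper741.qs (Pool.Agent.Helper741.cc M j i) k :=
        Pool.Agent.Helper741.qs_nonneg M hij.symm (by omega)
      split_ifs
      · exact add_nonneg (smul_nonneg q1 (ee_nonneg j)) (smul_nonneg q2 (ee_nonneg i))
      · exact add_nonneg (smul_nonneg q1 (ee_nonneg i)) (smul_nonneg q2 (ee_nonneg j))
    rw [geo_nonneg_iff] at h2
    rcases cs.length_mul_simple (cs.wordProd (CoxeterSystem.alternatingWord j i k)) j with h3 | h3 <;>
      omega

theorem isReduced_aw {i j : B} (hij : i ≠ j) {k : ℕ} (hk : M i j = 0 ∨ k ≤ M i j) :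
    cs.IsReduced (aw i j k) := by
  rw [Pool.Agent.Helper741.aw_eq_reverse, cs.isReduced_reverse_iff]
  apply isReduced_alternatingWord hij.symm
  rwa [M.symmetric j i]

theorem wordProd_aw' (i j : B) (k : ℕ) :
    cs.wordProd (aw i j k) = alt (cs.simple i) (cs.simple j) k := by
  rw [CoxeterSystem.wordProd, aw_prod]

/-- **the braid relation** -/
theorem E_braid [Finite X] (w : W) (s t : B) :
    E cs X w (aw s t (M s t)) = E cs X w (aw t s (M s t)) := by
  classical
  by_cases hst : s = t
  · rw [hst]
  have h1 := isReduced_aw (cs := cs) hst (k := M s t) (Or.inr le_rfl)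
  have h2 := isReduced_aw (cs := cs) (i := t) (j := s) (Ne.symm hst) (k := M s t)
    (Or.inr (by rw [M.symmetric]))
  rw [E_eq, E_eq]
  refine prod_gen_eq _ _ (isReduced_el w _ h1) (isReduced_el w _ h2) ?_
  rw [prod_el, prod_el]
  have h3 : cs.wordProd (aw s t (M s t)) = cs.wordProd (aw t s (M s t)) := by
    rw [wordProd_aw', wordProd_aw', simple_alt_comm]
  rw [h3]

/-- the emitted letter depends only on the coset -/
theorem em_mul {a : W} (ha : a ∈ WX cs X) (w : W) (s : B) : em cs X (a * w) s = em cs X w s := by
  unfold em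
  rw [rep_mul ha]

theorem em_one (x : X) : em cs X 1 x.1 = Artin.gen (rest M X) x := by
  unfold em
  have h : Cr cs X (rep cs X 1) x.1 := ⟨x, by rw [rep_one, one_mul, mul_one]⟩
  rw [dif_pos h]
  obtain ⟨y, hy⟩ : ∃ y, y = h.choose := ⟨_, rfl⟩
  have h1 := h.choose_spec
  rw [← hy] at h1 ⊢
  rw [rep_one, one_mul, mul_one] at h1
  rw [Subtype.ext (simple_injective cs h1)]

end Pool.Agent.N6.A
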