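import Pool.Agent.N6.A.Braid
import Pool.Agent.N24.FV.Cor

/-!
# The homomorphism of an Artin group which is a retraction on a standard parabolic subgroup
-/

set_option autoImplicit false

namespace Pool.Agent.N6.A

open Pool.Agent.R676.Cox
open Pool.Agent.N24.FV (FVF actF)
open Pool.Agent.N77.CX (rest cmap cmap_simple cmap_injective)
open Pool.Agent.Helper741 (Artin alt aw aw_prod aw_succ)

/-! ### homomorphisms of Artin groups -/

section amap

variable {S T U : Type} {M : CoxeterMatrix S} {M' : CoxeterMatrix T} {M'' : CoxeterMatrix U}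

/-- the homomorphism given by a map which preserves the labels -/
def amap (ι : S → T) (hι : ∀ x y, M' (ι x) (ι y) = M x y) : Artin M →* Artin M' :=
  Artin.lift (fun i => Artin.gen M' (ι i)) (fun i j => by rw [← hι]; exact Artin.rel _ _)

theorem amap_gen (ι : S → T) (hι : ∀ x y, M' (ι x) (ι y) = M x y) (i : S) :
    amap ι hι (Artin.gen M i) = Artin.gen M' (ι i) := Artin.lift_gen _ _ _

theorem amap_amap (ι : S → T) (hι : ∀ x y, M' (ι x) (ι y) = M x y) (κ : T → U)
    (hκ : ∀ x y, M'' (κ x) (κ y) = M' x y) (h : ∀ x y, M'' (κ (ι x)) (κ (ι y)) = M x y)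
    (x : Artin M) : amap κ hκ (amap ι hι x) = amap (fun i => κ (ι i)) h x := by
  have h1 : (amap κ hκ).comp (amap ι hι) = amap (fun i => κ (ι i)) h := by
    apply Artin.hom_ext
    intro i
    rw [MonoidHom.comp_apply, amap_gen, amap_gen, amap_gen]
  exact DFunLike.congr_fun h1 x

theorem amap_id (h : ∀ x y : S, M (id x) (id y) = M x y) (x : Artin M) : amap id h x = x := by
  have h1 : amap id h = MonoidHom.id _ := by
    apply Artin.hom_ext
    intro i
    rw [amap_gen]
    rfl
  exact DFunLike.congr_fun h1 x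

theorem rest_apply (M : CoxeterMatrix S) (X : Set S) (x y : X) : M x.1 y.1 = rest M X x y := rfl

/-- the homomorphism of a standard parabolic subgroup -/
def inc (M : CoxeterMatrix S) (X : Set S) : Artin (rest M X) →* Artin M :=
  amap Subtype.val (rest_apply M X)

theorem inc_gen (M : CoxeterMatrix S) (X : Set S) (x : X) :
    inc M X (Artin.gen (rest M X) x) = Artin.gen M x.1 := amap_gen _ _ _

end amap

/-! ### the right regular action -/

/-- a group on which the group acts from the right -/
def RT (H : Type) : Type := H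

instance instRT {H : Type} [Group H] : MulAction H (RT H) where
  smul q x := (show H from x) * q⁻¹
  one_smul x := by
    show (show H from x) * 1⁻¹ = x
    rw [inv_one, mul_one]
  mul_smul a b x := by
    show (show H from x) * (a * b)⁻¹ = (show H from x) * b⁻¹ * a⁻¹
    rw [mul_inv_rev, mul_assoc]

section fv

variable {H A : Type} [Group H] [Group A]

theorem mul_la (a b : FVF (RT H) A ⋊[actF (RT H) A H] H) (ω : H) :
    (a * b).left.1 ω = a.left.1 ω * b.left.1 (ω * a.right : H) := by
  rw [SemidirectProduct.mul_left]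
  show a.left.1 ω * b.left.1 (ω * (a.right⁻¹)⁻¹ : H) = _
  rw [inv_inv]

theorem one_la (ω : H) : (1 : FVF (RT H) A ⋊[actF (RT H) A H] H).left.1 ω = 1 := rfl

theorem inv_la (a : FVF (RT H) A ⋊[actF (RT H) A H] H) (ω : H) :
    (a⁻¹).left.1 ω = (a.left.1 (ω * a.right⁻¹ : H))⁻¹ := by
  have h := mul_la a⁻¹ a ω
  rw [inv_mul_cancel, one_la, SemidirectProduct.inv_right] at h
  exact (eq_inv_of_mul_eq_one_left h.symm)

end fv

section coh

variable {B : Type} (M : CoxeterMatrix B) (X : Set B) [Finite X] {Q : Type} [Group Q] [MulAction Q B]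
  (hM : ∀ (q : Q) (x y : B), M (q • x) (q • y) = M x y) (φ : Q →* MulAut M.Group)
  (hφ : ∀ (q : Q) (s : B), φ q (M.toCoxeterSystem.simple s) = M.toCoxeterSystem.simple (q • s))

/-- the target -/
abbrev PP : Type :=
  FVF (RT (M.Group ⋊[φ] Q)) (Artin (rest M X)) ⋊[actF (RT (M.Group ⋊[φ] Q)) (Artin (rest M X))
    (M.Group ⋊[φ] Q)] (M.Group ⋊[φ] Q)

/-- the image of a generator -/
noncomputable def gi (s : B) : PP M X φ :=
  ⟨⟨fun ω : M.Group ⋊[φ] Q => em M.toCoxeterSystem X ω.left (ω.right • s), by
    refine ((Set.finite_range (Artin.gen (rest M X))).insert 1).subset ?_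
    rintro _ ⟨ω, rfl⟩
    show em M.toCoxeterSystem X _ _ ∈ _
    unfold em
    split_ifs
    · exact Or.inr ⟨_, rfl⟩
    · exact Or.inl rfl⟩, SemidirectProduct.inl (M.toCoxeterSystem.simple s)⟩

theorem gi_la (s : B) (ω : M.Group ⋊[φ] Q) :
    (gi M X φ s).left.1 ω = em M.toCoxeterSystem X ω.left (ω.right • s) := rfl

theorem gi_right (s : B) : (gi M X φ s).right = SemidirectProduct.inl (M.toCoxeterSystem.simple s) :=
  rfl

include hφ in
theorem prod_la (l : List B) (ω : M.Group ⋊[φ] Q) : ((l.map (gi M X φ)).prod).left.1 ω =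
    E M.toCoxeterSystem X ω.left (l.map (fun s => ω.right • s)) := by
  induction l generalizing ω with
  | nil => rfl
  | cons s l ih =>
    rw [List.map_cons, List.prod_cons, mul_la, ih, gi_la, List.map_cons, E, gi_right]
    have h1 : (ω * SemidirectProduct.inl (M.toCoxeterSystem.simple s)).left =
        ω.left * M.toCoxeterSystem.simple (ω.right • s) := by
      rw [SemidirectProduct.mul_left, SemidirectProduct.left_inl, hφ]
    have h2 : (ω * SemidirectProduct.inl (M.toCoxeterSystem.simple s)).right = ω.right := by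
      rw [SemidirectProduct.mul_right, SemidirectProduct.right_inl, mul_one]
    rw [h1, h2]

theorem prod_right (l : List B) : ((l.map (gi M X φ)).prod).right =
    SemidirectProduct.inl (M.toCoxeterSystem.wordProd l) := by
  induction l with
  | nil => simp
  | cons s l ih =>
    rw [List.map_cons, List.prod_cons, SemidirectProduct.mul_right, ih,
      CoxeterSystem.wordProd_cons, map_mul]
    rfl

theorem aw_map {S T : Type} (f : S → T) (i j : S) (k : ℕ) :
    (aw i j k).map f = aw (f i) (f j) k := by
  induction k generalizing i j with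
  | zero => rfl
  | succ k ih => rw [aw_succ, aw_succ, List.map_cons, ih]

include hM hφ in
theorem gi_braid (s t : B) :
    alt (gi M X φ s) (gi M X φ t) (M s t) = alt (gi M X φ t) (gi M X φ s) (M s t) := by
  rw [← aw_prod, ← aw_prod]
  refine SemidirectProduct.ext ?_ ?_
  · apply Subtype.ext
    funext ω'
    obtain ⟨ω, hω⟩ : ∃ ω : M.Group ⋊[φ] Q, ω = ω' := ⟨ω', rfl⟩
    rw [← hω]
    have h1 := prod_la M X φ hφ (aw s t (M s t)) ω
    have h2 := prod_la M X φ hφ (aw t s (M s t)) ω
    refine h1.trans (Eq.trans ?_ h2.symm)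
    rw [aw_map, aw_map]
    have h := E_braid (cs := M.toCoxeterSystem) (X := X) ω.left (ω.right • s) (ω.right • t)
    rw [hM] at h
    exact h
  · rw [prod_right, prod_right, wordProd_aw', wordProd_aw', simple_alt_comm]

/-- **the homomorphism** -/
noncomputable def Fh : Artin M →* PP M X φ := Artin.lift (gi M X φ) (gi_braid M X hM φ hφ)

theorem Fh_gen (s : B) : Fh M X hM φ hφ (Artin.gen M s) = gi M X φ s := Artin.lift_gen _ _ _

theorem Fh_inv (g : Artin M) (a : M.Group) (ha : a ∈ WX M.toCoxeterSystem X) (ω : M.Group ⋊[φ] Q) :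
    (Fh M X hM φ hφ g).left.1 (SemidirectProduct.inl a * ω : M.Group ⋊[φ] Q) =
      (Fh M X hM φ hφ g).left.1 ω := by
  induction g using Artin.induction generalizing ω with
  | one => rw [map_one, one_la, one_la]
  | gen i =>
    rw [Fh_gen, gi_la, gi_la, SemidirectProduct.mul_left, SemidirectProduct.mul_right,
      SemidirectProduct.left_inl, SemidirectProduct.right_inl, map_one, MulAut.one_apply, one_mul,
      em_mul ha]
  | mul x y hx hy => rw [map_mul, mul_la, mul_la, hx, mul_assoc, hy]
  | inv x hx => rw [map_inv, inv_la, inv_la, mul_assoc, hx]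

theorem Fh_right_mem (y : Artin (rest M X)) :
    ∃ a ∈ WX M.toCoxeterSystem X, (Fh M X hM φ hφ (inc M X y)).right =
      SemidirectProduct.inl a := by
  induction y using Artin.induction with
  | one => exact ⟨1, one_mem _, by simp⟩
  | gen i =>
    refine ⟨_, simple_mem i.2, ?_⟩
    rw [inc_gen, Fh_gen]
    rfl
  | mul x y hx hy =>
    obtain ⟨a, ha, h1⟩ := hx
    obtain ⟨b, hb, h2⟩ := hy
    exact ⟨a * b, mul_mem ha hb, by rw [map_mul, map_mul, SemidirectProduct.mul_right, h1, h2, map_mul]⟩
  | inv x hx =>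
    obtain ⟨a, ha, h1⟩ := hx
    exact ⟨a⁻¹, inv_mem ha, by rw [map_inv, map_inv, SemidirectProduct.inv_right, h1, map_inv]⟩

/-- the homomorphism is the identity on the parabolic subgroup -/
theorem Fh_base (y : Artin (rest M X)) :
    (Fh M X hM φ hφ (inc M X y)).left.1 (1 : M.Group ⋊[φ] Q) = y := by
  induction y using Artin.induction with
  | one => rw [map_one, map_one, one_la]
  | gen i =>
    rw [inc_gen, Fh_gen, gi_la, SemidirectProduct.one_left, SemidirectProduct.one_right, one_smul,
      em_one]
  | mul x y hx hy =>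
    rw [map_mul, map_mul, mul_la, hx, one_mul]
    obtain ⟨a, ha, h1⟩ := Fh_right_mem M X hM φ hφ x
    rw [h1, ← mul_one (SemidirectProduct.inl a), Fh_inv M X hM φ hφ _ a ha, hy]
  | inv x hx =>
    rw [map_inv, map_inv, inv_la, one_mul]
    obtain ⟨a, ha, h1⟩ := Fh_right_mem M X hM φ hφ x
    rw [h1, ← map_inv, ← mul_one (SemidirectProduct.inl a⁻¹), Fh_inv M X hM φ hφ _ _ (inv_mem ha), hx]

theorem Fh_inj (y : Artin (rest M X))
    (h : Fh M X hM φ hφ (inc M X y) = 1) : y = 1 := by
  rw [← Fh_base M X hM φ hφ y, h, one_la]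

/-- conjugation by the group of diagram automorphisms -/
theorem Fh_conj (q : Q) (g : Artin M) : Fh M X hM φ hφ (amap (fun s => q • s) (hM q) g) =
    SemidirectProduct.inr (SemidirectProduct.inr q) * Fh M X hM φ hφ g *
      (SemidirectProduct.inr (SemidirectProduct.inr q))⁻¹ := by
  have h : (Fh M X hM φ hφ).comp (amap (fun s => q • s) (hM q)) =
      (MulAut.conj (SemidirectProduct.inr (SemidirectProduct.inr q))).toMonoidHom.comp
        (Fh M X hM φ hφ) := by
    apply Artin.hom_ext
    intro s
    rw [MonoidHom.comp_apply, amap_gen, Fh_gen, MonoidHom.comp_apply, Fh_gen]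
    show _ = SemidirectProduct.inr (SemidirectProduct.inr q) * gi M X φ s *
      (SemidirectProduct.inr (SemidirectProduct.inr q))⁻¹
    rw [← map_inv]
    refine SemidirectProduct.ext ?_ ?_
    · apply Subtype.ext
      funext ω'
      obtain ⟨ω, hω⟩ : ∃ ω : M.Group ⋊[φ] Q, ω = ω' := ⟨ω', rfl⟩
      rw [← hω, mul_la, mul_la, gi_la, gi_la]
      rw [SemidirectProduct.left_inr, SemidirectProduct.left_inr, SemidirectProduct.right_inr]
      show _ = 1 * em M.toCoxeterSystem X _ _ * 1
      rw [one_mul, mul_one, SemidirectProduct.mul_left, SemidirectProduct.mul_right,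
        SemidirectProduct.left_inr, SemidirectProduct.right_inr, map_one, mul_one, mul_smul]
    · rw [SemidirectProduct.mul_right, SemidirectProduct.mul_right, SemidirectProduct.right_inr,
        SemidirectProduct.right_inr, gi_right, gi_right, ← hφ, SemidirectProduct.inl_aut, map_inv]
  exact DFunLike.congr_fun h g

end coh

end Pool.Agent.N6.A
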