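import Pool.Agent.N6.A.Min
import Pool.Agent.Helper741.Matsumoto

/-!
# Elements of a Coxeter group which map a simple root to a simple root
-/

set_option autoImplicit false

namespace Pool.Agent.N6.A

open Pool.Agent.R676.Cox
open CoxeterSystem
open Pool.Agent.Helper741 (cc qs qs_sin qs_of_one qs_nonneg sin_pos_of_ne cc_of_zero)

variable {B W : Type} [Group W] {M : CoxeterMatrix B} (cs : CoxeterSystem M W)

theorem isReduced_alternatingWord' {i j : B} (hij : i ≠ j) {k : ℕ} (hk : M i j = 0 ∨ k ≤ M i j) :
    cs.IsReduced (alternatingWord i j k) := by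
  induction k generalizing i j with
  | zero =>
    unfold CoxeterSystem.IsReduced
    simp [alternatingWord]
  | succ k ih =>
    have hk' : M j i = 0 ∨ k + 1 ≤ M j i := by rwa [M.symmetric j i]
    have h1 : cs.IsReduced (alternatingWord j i k) := ih hij.symm (by omega)
    unfold CoxeterSystem.IsReduced at h1 ⊢
    rw [length_alternatingWord] at h1 ⊢
    rw [alternatingWord_succ, cs.wordProd_concat]
    have h2 : 0 ≤ geo cs (cs.wordProd (alternatingWord j i k)) (ee j) := by
      rw [geo_wordProd, prod_alt_ee]
      have q1 : 0 ≤ qs (cc M j i) (k + 1) := qs_nonneg M hij.symm hk'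
      have q2 : 0 ≤ qs (cc M j i) k := qs_nonneg M hij.symm (by omega)
      split_ifs
      · exact add_nonneg (smul_nonneg q1 (ee_nonneg j)) (smul_nonneg q2 (ee_nonneg i))
      · exact add_nonneg (smul_nonneg q1 (ee_nonneg i)) (smul_nonneg q2 (ee_nonneg j))
    rw [geo_nonneg_iff] at h2
    rcases cs.length_mul_simple (cs.wordProd (alternatingWord j i k)) j with h3 | h3 <;> omega

/-- elements of a dihedral parabolic subgroup -/
theorem dihedral {s r : B} {u : W} (hu : u ∈ WX cs {s, r}) :
    ∃ k : ℕ, (M s r = 0 ∨ k ≤ M s r) ∧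
      (u = cs.wordProd (alternatingWord s r k) ∨ u = cs.wordProd (alternatingWord r s k)) := by
  have key : ∀ (i j : B), M i j = M s r → ∀ (k : ℕ), (M s r = 0 ∨ k ≤ M s r) →
      (∃ k', (M s r = 0 ∨ k' ≤ M s r) ∧ (cs.wordProd (alternatingWord i j k) * cs.simple j =
        cs.wordProd (alternatingWord i j k') ∨ cs.wordProd (alternatingWord i j k) * cs.simple j =
        cs.wordProd (alternatingWord j i k'))) ∧
      (∃ k', (M s r = 0 ∨ k' ≤ M s r) ∧ (cs.wordProd (alternatingWord i j k) * cs.simple i =
        cs.wordProd (alternatingWord i j k') ∨ cs.wordProd (alternatingWord i j k) * cs.simple i =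
        cs.wordProd (alternatingWord j i k'))) := by
    intro i j hij k hk
    constructor
    · cases k with
      | zero =>
        by_cases h1 : M s r = 0 ∨ 1 ≤ M s r
        · exact ⟨1, h1, Or.inl (by simp [alternatingWord])⟩
        · omega
      | succ k =>
        refine ⟨k, by omega, Or.inr ?_⟩
        rw [alternatingWord_succ, cs.wordProd_concat, mul_assoc, cs.simple_mul_simple_self, mul_one]
    · by_cases h1 : M s r = 0 ∨ k + 1 ≤ M s r
      · refine ⟨k + 1, h1, Or.inr ?_⟩
        rw [alternatingWord_succ, cs.wordProd_concat]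
      · have hk' : k = M s r := by omega
        have hpos : 0 < M s r := by omega
        refine ⟨M s r - 1, Or.inr (by omega), Or.inl ?_⟩
        have h2 : cs.wordProd (alternatingWord i j k) * cs.simple i =
            cs.wordProd (alternatingWord j i (k + 1)) := by
          rw [alternatingWord_succ, cs.wordProd_concat]
        rw [h2, cs.prod_alternatingWord_eq_prod_alternatingWord_sub j i (k + 1)
          (by rw [M.symmetric, hij]; omega)]
        congr 2
        rw [M.symmetric, hij, hk']
        omega
  have hsr : M r s = M s r := M.symmetric _ _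
  induction hu using Subgroup.closure_induction_right with
  | one => exact ⟨0, by omega, Or.inl (by simp [alternatingWord])⟩
  | mul_right x hx y hy ih =>
    obtain ⟨b, hb, rfl⟩ := hy
    obtain ⟨k, hk, h1 | h1⟩ := ih
    · rcases hb with rfl | hb
      · obtain ⟨k', h2, h3⟩ := (key b r rfl k hk).2
        rw [h1]
        exact ⟨k', h2, h3⟩
      · rw [Set.mem_singleton_iff] at hb
        subst hb
        obtain ⟨k', h2, h3⟩ := (key s b rfl k hk).1
        rw [h1]
        exact ⟨k', h2, h3⟩
    · rcases hb with rfl | hb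
      · obtain ⟨k', h2, h3⟩ := (key r b hsr k hk).1
        rw [h1]
        exact ⟨k', h2, h3.symm⟩
      · rw [Set.mem_singleton_iff] at hb
        subst hb
        obtain ⟨k', h2, h3⟩ := (key b s hsr k hk).2
        rw [h1]
        exact ⟨k', h2, h3.symm⟩
  | mul_inv_cancel x hx y hy ih =>
    obtain ⟨b, hb, rfl⟩ := hy
    rw [cs.inv_simple]
    obtain ⟨k, hk, h1 | h1⟩ := ih
    · rcases hb with rfl | hb
      · obtain ⟨k', h2, h3⟩ := (key b r rfl k hk).2
        rw [h1]
        exact ⟨k', h2, h3⟩
      · rw [Set.mem_singleton_iff] at hb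
        subst hb
        obtain ⟨k', h2, h3⟩ := (key s b rfl k hk).1
        rw [h1]
        exact ⟨k', h2, h3⟩
    · rcases hb with rfl | hb
      · obtain ⟨k', h2, h3⟩ := (key r b hsr k hk).1
        rw [h1]
        exact ⟨k', h2, h3.symm⟩
      · rw [Set.mem_singleton_iff] at hb
        subst hb
        obtain ⟨k', h2, h3⟩ := (key b s hsr k hk).2
        rw [h1]
        exact ⟨k', h2, h3.symm⟩

/-- the action of an alternating word on a simple root -/
theorem geo_alt (s r : B) (k : ℕ) : geo cs (cs.wordProd (alternatingWord s r k)) (ee s) =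
    if Even k then qs (cc M s r) (k + 1) • ee s + qs (cc M s r) k • ee r
      else qs (cc M s r) (k + 1) • ee r + qs (cc M s r) k • ee s := by
  rw [geo_wordProd, prod_alt_ee]

theorem qs_ne_zero {s r : B} (_h : s ≠ r) {k : ℕ} (hk : 0 < k) (hk' : M s r = 0 ∨ k < M s r) :
    qs (cc M s r) k ≠ 0 := by
  intro h0
  by_cases hM : M s r = 0
  · rw [cc_of_zero M hM, qs_of_one] at h0
    exact hk.ne' (by exact_mod_cast h0)
  · have hk2 : k < M s r := by omega
    have hMpos : (0 : ℝ) < (M s r : ℝ) := by exact_mod_cast (by omega : 0 < M s r)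
    have h1 := qs_sin (Real.pi / (M s r : ℝ)) k
    have h2 : Real.cos (Real.pi / (M s r : ℝ)) = cc M s r := rfl
    rw [h2, h0, zero_mul] at h1
    have h3 : 0 < Real.sin (k * (Real.pi / (M s r : ℝ))) := by
      apply Real.sin_pos_of_pos_of_lt_pi
      · have := Real.pi_pos
        positivity
      · rw [mul_div_assoc', div_lt_iff₀ hMpos, mul_comm]
        exact mul_lt_mul_of_pos_left (by exact_mod_cast hk2) Real.pi_pos
    rw [← h1] at h3
    exact lt_irrefl _ h3

theorem qs_last {s r : B} (h : s ≠ r) (hM : M s r ≠ 0) :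
    qs (cc M s r) (M s r) = 0 ∧ qs (cc M s r) (M s r - 1) = 1 := by
  have hs := sin_pos_of_ne M h hM
  have hMpos : (0 : ℝ) < (M s r : ℝ) := by exact_mod_cast (by omega : 0 < M s r)
  have h2 : Real.cos (Real.pi / (M s r : ℝ)) = cc M s r := rfl
  constructor
  · have h1 := qs_sin (Real.pi / (M s r : ℝ)) (M s r)
    rw [h2, mul_div_cancel₀ _ hMpos.ne', Real.sin_pi] at h1
    exact (mul_eq_zero.1 h1).resolve_right hs.ne'
  · have h1 := qs_sin (Real.pi / (M s r : ℝ)) (M s r - 1)
    have h3 : ((M s r - 1 : ℕ) : ℝ) * (Real.pi / (M s r : ℝ)) = Real.pi - Real.pi / (M s r : ℝ) := by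
      rw [Nat.cast_sub (by omega), Nat.cast_one, sub_mul, one_mul, mul_div_cancel₀ _ hMpos.ne']
    rw [h2, h3, Real.sin_pi_sub] at h1
    exact mul_right_cancel₀ hs.ne' (h1.trans (one_mul _).symm)

/-- the mixed relation for roots -/
theorem geo_mix {s r : B} (h : s ≠ r) (hM : M s r ≠ 0) :
    geo cs (cs.wordProd (alternatingWord s r (M s r - 1))) (ee s) =
      ee (if Even (M s r) then s else r) := by
  obtain ⟨h1, h2⟩ := qs_last h hM
  have h3 : M s r - 1 + 1 = M s r := by omega
  rw [geo_alt, h3, h1, h2]
  by_cases he : Even (M s r)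
  · have he' : ¬ Even (M s r - 1) := by
      intro h4
      have h5 := h4.add_one
      rw [h3] at h5
      exact (Nat.not_even_iff_odd.2 h5) he
    rw [if_neg he', if_pos he, zero_smul, zero_add, one_smul]
  · have he' : Even (M s r - 1) := by
      by_contra h4
      rw [Nat.not_even_iff_odd] at h4
      have h5 := h4.add_one
      rw [h3] at h5
      exact he h5
    rw [if_pos he', if_neg he, zero_smul, zero_add, one_smul]

theorem ee_inj {s t : B} (h : (ee s : B →₀ ℝ) = ee t) : s = t :=
  Finsupp.single_left_injective one_ne_zero h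

/-- **conjugation by elements which map a simple root to a simple root** -/
theorem conj_simple {H : Type} [Group H] (f : W →* H) (σ : B → H)
    (hmix : ∀ s t, s ≠ t → M s t ≠ 0 →
      f (cs.wordProd (alternatingWord s t (M s t - 1))) * σ s =
        σ (if Even (M s t) then s else t) * f (cs.wordProd (alternatingWord s t (M s t - 1))))
    (n : ℕ) (v : W) (hn : cs.length v = n) (s t : B) (h : geo cs v (ee s) = ee t) :
    f v * σ s * (f v)⁻¹ = σ t := by
  classical
  induction n using Nat.strong_induction_on generalizing v s t with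
  | _ n ih =>
    by_cases hv : v = 1
    · subst hv
      rw [map_one, Module.End.one_apply] at h
      rw [ee_inj h]
      simp
    obtain ⟨r, hr⟩ := cs.exists_rightDescent_of_ne_one hv
    have hvr : geo cs v (ee r) ≤ 0 := geo_nonpos cs v r hr
    have hsr : s ≠ r := by
      rintro rfl
      rw [h] at hvr
      exact ee_ne_zero t (le_antisymm hvr (ee_nonneg t))
    obtain ⟨⟨a, ha⟩, -, hmin⟩ := WellFounded.has_min
      (measure fun a : WX cs {s, r} => cs.length (v * (a : W))).wf Set.univ ⟨1, trivial⟩
    obtain ⟨v', hv'⟩ : ∃ v', v' = v * a := ⟨_, rfl⟩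
    obtain ⟨u, hu⟩ : ∃ u, u = a⁻¹ := ⟨_, rfl⟩
    have hvu : v = v' * u := by rw [hv', hu, mul_inv_cancel_right]
    have huX : u ∈ WX cs {s, r} := by rw [hu]; exact inv_mem ha
    have hmem : ∀ x ∈ ({s, r} : Set B), cs.simple x ∈ WX cs {s, r} := fun x hx => simple_mem hx
    have hmin' : ∀ b ∈ WX cs {s, r}, cs.length v' ≤ cs.length (v' * b) := by
      intro b hb
      have h1 : ¬ cs.length (v * (a * b)) < cs.length (v * a) := hmin ⟨a * b, mul_mem ha hb⟩ trivial
      rw [← mul_assoc, ← hv'] at h1
      omega
    have hlen : cs.length v' < cs.length v := by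
      have h1 : ¬ cs.length (v * cs.simple r) < cs.length (v * a) :=
        hmin ⟨cs.simple r, hmem r (Or.inr rfl)⟩ trivial
      rw [← hv'] at h1
      have h2 : cs.length (v * cs.simple r) < cs.length v := hr
      omega
    have hmn : Mn cs {s, r} v'⁻¹ := by
      intro x hx
      rw [inv_inv, geo_nonneg_iff]
      have h1 := hmin' _ (hmem x hx)
      rcases cs.length_mul_simple v' x with h2 | h2 <;> omega
    have hgeo : ∀ x, geo cs v x = geo cs v' (geo cs u x) := by
      intro x
      rw [hvu, map_mul, Module.End.mul_apply]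
    have hsupp : ∀ x ∈ ({s, r} : Set B), ∀ j, j ∉ ({s, r} : Set B) → (geo cs u (ee x)) j = 0 := by
      intro x hx j hj
      rw [supp huX _ hj]
      have hne : x ≠ j := fun h => hj (h ▸ hx)
      simp [ee, hne]
    have hpos : ∀ y : B →₀ ℝ, 0 ≤ y → (∀ j, j ∉ ({s, r} : Set B) → y j = 0) → 0 ≤ geo cs v' y := by
      intro y hy hy'
      have h1 := nn hmn hy hy'
      rwa [inv_inv] at h1
    have hus : 0 ≤ geo cs u (ee s) := by
      rcases dich (cs := cs) u s with h1 | h1
      · exact h1
      · exfalso
        have h2 := hpos (- geo cs u (ee s)) (neg_nonneg.2 h1) (fun j hj => by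
          rw [Finsupp.neg_apply, hsupp s (Or.inl rfl) j hj, neg_zero])
        rw [map_neg, ← hgeo, h, neg_nonneg] at h2
        exact ee_ne_zero t (le_antisymm h2 (ee_nonneg t))
    have hur : geo cs u (ee r) ≤ 0 := by
      rcases dich (cs := cs) u r with h1 | h1
      · exfalso
        have h2 := hpos (geo cs u (ee r)) h1 (hsupp r (Or.inr rfl))
        rw [← hgeo] at h2
        exact geo_ee_ne_zero cs v r (le_antisymm hvr h2)
      · exact h1
    -- alternating words that end with `s` do not occur
    have hno : ∀ k, 0 < k → (M s r = 0 ∨ k ≤ M s r) → u ≠ cs.wordProd (alternatingWord r s k) := by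
      intro k hk0 hk hu'
      obtain ⟨k, rfl⟩ : ∃ k', k = k' + 1 := ⟨k - 1, by omega⟩
      have h2 : cs.IsReduced (alternatingWord r s (k + 1)) :=
        isReduced_alternatingWord' cs hsr.symm (by rw [M.symmetric]; exact hk)
      have h3 : cs.IsReduced (alternatingWord s r k) :=
        isReduced_alternatingWord' cs hsr (by omega)
      have h4 : cs.length (u * cs.simple s) < cs.length u := by
        have h5 : u * cs.simple s = cs.wordProd (alternatingWord s r k) := by
          rw [hu', alternatingWord_succ, cs.wordProd_concat, mul_assoc, cs.simple_mul_simple_self,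
            mul_one]
        rw [h5, h3.eq, hu', h2.eq, length_alternatingWord, length_alternatingWord]
        omega
      have h5 := geo_nonpos cs u s h4
      exact geo_ee_ne_zero cs u s (le_antisymm h5 hus)
    have hu1 : u ≠ 1 := by
      rintro rfl
      rw [map_one, Module.End.one_apply] at hur
      exact ee_ne_zero r (le_antisymm hur (ee_nonneg r))
    obtain ⟨k, hk, huk⟩ := dihedral cs huX
    have hk0 : 0 < k := by
      rcases Nat.eq_zero_or_pos k with rfl | hk0
      · exfalso
        apply hu1
        rcases huk with h1 | h1 <;> simpa [alternatingWord] using h1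
      · exact hk0
    have huk' := huk.resolve_right (hno k hk0 hk)
    have hkM : M s r = 0 ∨ k < M s r := by
      rcases hk with hk | hk
      · exact Or.inl hk
      · rcases hk.lt_or_eq with hk | hk
        · exact Or.inr hk
        · exfalso
          apply hno k hk0 (Or.inr hk.le)
          rw [huk', cs.prod_alternatingWord_eq_prod_alternatingWord_sub s r k (by omega)]
          congr 2
          omega
    have hq1 := qs_ne_zero hsr hk0 hkM
    have hq1' : 0 ≤ qs (cc M s r) k := qs_nonneg M hsr (by omega)
    have hq2' : 0 ≤ qs (cc M s r) (k + 1) := qs_nonneg M hsr (by omega)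
    -- the second coefficient is zero
    have hs' := hmn s (Or.inl rfl)
    have hr' := hmn r (Or.inr rfl)
    rw [inv_inv] at hs' hr'
    have hq2 : qs (cc M s r) (k + 1) = 0 := by
      by_contra hq2
      obtain ⟨a1, b1, ha1, hb1, hab⟩ : ∃ a1 b1 : ℝ, 0 < a1 ∧ 0 < b1 ∧
          geo cs u (ee s) = a1 • ee s + b1 • ee r := by
        rw [huk', geo_alt]
        split_ifs
        · exact ⟨_, _, lt_of_le_of_ne hq2' (Ne.symm hq2), lt_of_le_of_ne hq1' (Ne.symm hq1), rfl⟩
        · exact ⟨_, _, lt_of_le_of_ne hq1' (Ne.symm hq1), lt_of_le_of_ne hq2' (Ne.symm hq2),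
            add_comm _ _⟩
      have h1 : a1 • geo cs v' (ee s) + b1 • geo cs v' (ee r) = ee t := by
        rw [← map_smul, ← map_smul, ← map_add, ← hab, ← hgeo, h]
      have h2 : ∀ j, j ≠ t → geo cs v' (ee s) j = 0 ∧ geo cs v' (ee r) j = 0 := by
        intro j hj
        have h3 := DFunLike.congr_fun h1 j
        have h4 : (ee t : B →₀ ℝ) j = 0 := by simp [ee, hj.symm]
        rw [h4, Finsupp.add_apply, Finsupp.smul_apply, Finsupp.smul_apply, smul_eq_mul,
          smul_eq_mul] at h3
        have h5 : 0 ≤ geo cs v' (ee s) j := hs' j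
        have h6 : 0 ≤ geo cs v' (ee r) j := hr' j
        have h7 := mul_nonneg ha1.le h5
        have h8 := mul_nonneg hb1.le h6
        have h9 : a1 * geo cs v' (ee s) j = 0 := by linarith
        have h10 : b1 * geo cs v' (ee r) j = 0 := by linarith
        exact ⟨(mul_eq_zero.1 h9).resolve_left ha1.ne', (mul_eq_zero.1 h10).resolve_left hb1.ne'⟩
      have h3 : (geo cs v' (ee r) t) • geo cs v' (ee s) = (geo cs v' (ee s) t) • geo cs v' (ee r) := by
        ext j
        rw [Finsupp.smul_apply, Finsupp.smul_apply, smul_eq_mul, smul_eq_mul]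
        by_cases hj : j = t
        · rw [hj, mul_comm]
        · rw [(h2 j hj).1, (h2 j hj).2, mul_zero, mul_zero]
      rw [← map_smul, ← map_smul] at h3
      have h4 := geo_injective_apply cs v' h3
      have h5 := DFunLike.congr_fun h4 s
      have h6 : geo cs v' (ee r) t = 0 := by
        simpa [ee, hsr, Finsupp.single_apply, hsr.symm] using h5
      apply geo_ee_ne_zero cs v' r
      ext j
      by_cases hj : j = t
      · rw [hj, h6]
        rfl
      · rw [(h2 j hj).2]
        rfl
    have hM0 : M s r ≠ 0 := by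
      intro hM0
      exact qs_ne_zero hsr (Nat.succ_pos k) (Or.inl hM0) hq2
    have hkm : k + 1 = M s r := by
      by_contra hne
      exact qs_ne_zero hsr (Nat.succ_pos k) (Or.inr (by omega)) hq2
    have hk' : k = M s r - 1 := by omega
    have h1 := geo_mix cs hsr hM0
    have h2 := hmix s r hsr hM0
    rw [← hk', ← huk'] at h1 h2
    have h3 : geo cs v' (ee (if Even (M s r) then s else r)) = ee t := by
      rw [← h1, ← hgeo, h]
    have h4 := ih _ (by rw [← hn]; exact hlen) v' rfl _ t h3
    rw [hvu, map_mul]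
    calc f v' * f u * σ s * (f v' * f u)⁻¹ = f v' * (f u * σ s) * (f u)⁻¹ * (f v')⁻¹ := by group
      _ = f v' * σ (if Even (M s r) then s else r) * (f v')⁻¹ := by rw [h2]; group
      _ = σ t := h4

end Pool.Agent.N6.A
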