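import Pool.Agent.N6.A.Main

/-!
# Reduction to irreducible subsets
-/

set_option autoImplicit false

namespace Pool.Agent.N6.A

open Pool.Agent.Y110.FJ
open Pool.Agent.Y462.SS (Closed)
open Pool.Agent.N77.CX (rest)
open Pool.Agent.Helper741 (Artin alt map_alt alt_zero alt_two)

variable {C : ∀ (G : Type) [Group G], Prop}

theorem alt_same_one {G : Type} [Group G] (m : ℕ) : alt (1 : G) 1 m = 1 := by
  have h := map_alt (1 : G →* G) (1 : G) 1 m
  simpa using h.symm

theorem alt_prod {G H : Type} [Group G] [Group H] (a b : G × H) (m : ℕ)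
    (h1 : alt a.1 b.1 m = alt b.1 a.1 m) (h2 : alt a.2 b.2 m = alt b.2 a.2 m) :
    alt a b m = alt b a m := by
  refine Prod.ext ?_ ?_
  · have h3 := map_alt (MonoidHom.fst G H) a b m
    have h4 := map_alt (MonoidHom.fst G H) b a m
    exact h3.trans (h1.trans h4.symm)
  · have h3 := map_alt (MonoidHom.snd G H) a b m
    have h4 := map_alt (MonoidHom.snd G H) b a m
    exact h3.trans (h2.trans h4.symm)

theorem C_split (hC : Closed C) {S : Type} (N : CoxeterMatrix S) (L : Set S)
    (hL : ∀ i ∈ L, ∀ j, j ∉ L → N i j = 2) (h1 : C (Artin (rest N L))) (h2 : C (Artin (rest N Lᶜ))) :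
    C (Artin N) := by
  classical
  have hcomm : ∀ i ∈ L, ∀ j, j ∉ L → Commute (Artin.gen N i) (Artin.gen N j) := by
    intro i hi j hj
    have h := Artin.rel (M := N) i j
    rw [hL i hi j hj, alt_two, alt_two] at h
    exact h
  have hc : ∀ (x : Artin (rest N L)) (y : Artin (rest N Lᶜ)),
      Commute (inc N L x) (inc N Lᶜ y) := by
    intro x y
    induction x using Artin.induction with
    | one => rw [map_one]; exact Commute.one_left _
    | gen i =>
      rw [inc_gen]
      induction y using Artin.induction with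
      | one => rw [map_one]; exact Commute.one_right _
      | gen j => rw [inc_gen]; exact hcomm _ i.2 _ j.2
      | mul x y hx hy => rw [map_mul]; exact hx.mul_right hy
      | inv x hx => rw [map_inv]; exact hx.inv_right
    | mul x y hx hy => rw [map_mul]; exact hx.mul_left hy
    | inv x hx => rw [map_inv]; exact hx.inv_left
  let F : S → Artin (rest N L) × Artin (rest N Lᶜ) := fun i =>
    if hi : i ∈ L then (Artin.gen (rest N L) ⟨i, hi⟩, 1) else (1, Artin.gen (rest N Lᶜ) ⟨i, hi⟩)
  have hF1 : ∀ i (hi : i ∈ L), F i = (Artin.gen (rest N L) ⟨i, hi⟩, 1) := fun i hi => dif_pos hi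
  have hF2 : ∀ i (hi : i ∉ L), F i = (1, Artin.gen (rest N Lᶜ) ⟨i, hi⟩) := fun i hi => dif_neg hi
  have hrel : ∀ i j, alt (F i) (F j) (N i j) = alt (F j) (F i) (N i j) := by
    intro i j
    by_cases hi : i ∈ L
    · by_cases hj : j ∈ L
      · rw [hF1 i hi, hF1 j hj]
        exact alt_prod _ _ _ (Artin.rel (M := rest N L) ⟨i, hi⟩ ⟨j, hj⟩) rfl
      · rw [hF1 i hi, hF2 j hj, hL i hi j hj, alt_two, alt_two]
        simp
    · by_cases hj : j ∈ L
      · rw [hF2 i hi, hF1 j hj, N.symmetric, hL j hj i hi, alt_two, alt_two]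
        simp
      · rw [hF2 i hi, hF2 j hj]
        exact alt_prod _ _ _ rfl (Artin.rel (M := rest N Lᶜ) ⟨i, hi⟩ ⟨j, hj⟩)
  refine hC.of_injective _ _ (Artin.lift F hrel) ?_ (hC.prod _ _ h1 h2)
  let Θ : Artin (rest N L) × Artin (rest N Lᶜ) →* Artin N :=
    MonoidHom.noncommCoprod (inc N L) (inc N Lᶜ) hc
  refine Function.LeftInverse.injective (g := Θ) fun x => ?_
  have h3 : Θ.comp (Artin.lift F hrel) = MonoidHom.id _ := by
    apply Artin.hom_ext
    intro i
    rw [MonoidHom.comp_apply, Artin.lift_gen]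
    by_cases hi : i ∈ L
    · rw [hF1 i hi]
      show inc N L _ * inc N Lᶜ 1 = Artin.gen N i
      rw [inc_gen, map_one, mul_one]
    · rw [hF2 i hi]
      show inc N L 1 * inc N Lᶜ _ = Artin.gen N i
      rw [inc_gen, map_one, one_mul]
  exact DFunLike.congr_fun h3 x

/-- The subset `K` is irreducible: it is not empty, and it is not a union of two nonempty disjoint
subsets all of whose mutual labels are `2`. -/
def Irr {B : Type} (M : CoxeterMatrix B) (K : Set B) : Prop :=
  K.Nonempty ∧ ∀ L : Set B, L ⊆ K → L.Nonempty → (K \ L).Nonempty → ∃ i ∈ L, ∃ j ∈ K \ L, M i j ≠ 2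

theorem C_empty (hC : Closed C) {S : Type} [IsEmpty S] (N : CoxeterMatrix S) : C (Artin N) := by
  refine hC.of_injective _ _ (1 : Artin N →* Multiplicative ℤ) ?_ hC.int
  rw [injective_iff_map_eq_one]
  intro x _
  induction x using Artin.induction with
  | one => rfl
  | gen i => exact isEmptyElim i
  | mul x y hx hy => rw [hx rfl, hy rfl, mul_one]
  | inv x hx => rw [hx rfl, inv_one]

theorem C_irr (hC : Closed C) {B : Type} (M : CoxeterMatrix B)
    (h : ∀ K : Set B, K.Finite → (∀ i ∈ K, ∀ j ∈ K, M i j ≠ 0) → Irr M K → C (Artin (rest M K)))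
    (n : ℕ) (K : Set B) (hn : K.ncard = n) (hK : K.Finite) (h0 : ∀ i ∈ K, ∀ j ∈ K, M i j ≠ 0) :
    C (Artin (rest M K)) := by
  induction n using Nat.strong_induction_on generalizing K with
  | _ n ih =>
    by_cases hirr : Irr M K
    · exact h K hK h0 hirr
    by_cases hne : K.Nonempty
    swap
    · rw [Set.not_nonempty_iff_eq_empty] at hne
      subst hne
      exact C_empty hC _
    unfold Irr at hirr
    push Not at hirr
    obtain ⟨L, hLK, hL, hKL, h2⟩ := hirr hne
    have hr1 : C (Artin (rest M L)) := by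
      refine ih _ ?_ L rfl (hK.subset hLK) (fun i hi j hj => h0 i (hLK hi) j (hLK hj))
      rw [← hn]
      refine Set.ncard_lt_ncard ⟨hLK, fun h => ?_⟩ hK
      obtain ⟨x, hx⟩ := hKL
      exact hx.2 (h hx.1)
    have hr2 : C (Artin (rest M (K \ L))) := by
      refine ih _ ?_ (K \ L) rfl (hK.subset Set.sdiff_subset) (fun i hi j hj => h0 i hi.1 j hj.1)
      rw [← hn]
      refine Set.ncard_lt_ncard ⟨Set.sdiff_subset, fun h => ?_⟩ hK
      obtain ⟨x, hx⟩ := hL
      exact (h (hLK hx)).2 hx
    refine C_split hC (rest M K) {x | x.1 ∈ L} ?_ ?_ ?_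
    · rintro ⟨i, hi⟩ hiL ⟨j, hj⟩ hjL
      rw [← rest_apply]
      exact h2 i hiL j ⟨hj, hjL⟩
    · refine C_of_range hC (M := M) (fun x : {x : K | x.1 ∈ L} => x.1.1)
        (Subtype.val_injective.comp Subtype.val_injective) _ (fun _ _ => rfl) ?_
      have hr : Set.range (fun x : {x : K | x.1 ∈ L} => x.1.1) = L := by
        ext x
        constructor
        · rintro ⟨y, rfl⟩
          exact y.2
        · intro hx
          exact ⟨⟨⟨x, hLK hx⟩, hx⟩, rfl⟩
      rw [hr]
      exact hr1
    · refine C_of_range hC (M := M) (fun x : ({x : K | x.1 ∈ L}ᶜ : Set K) => x.1.1)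
        (Subtype.val_injective.comp Subtype.val_injective) _ (fun _ _ => rfl) ?_
      have hr : Set.range (fun x : ({x : K | x.1 ∈ L}ᶜ : Set K) => x.1.1) = K \ L := by
        ext x
        constructor
        · rintro ⟨y, rfl⟩
          exact ⟨y.1.2, y.2⟩
        · intro hx
          exact ⟨⟨⟨x, hx.1⟩, hx.2⟩, rfl⟩
      rw [hr]
      exact hr2

end Pool.Agent.N6.A
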