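import Pool.Agent.N6.A.Am

/-!
# Artin groups of arbitrary rank and extensions
-/

set_option autoImplicit false

namespace Pool.Agent.N6.A

open Pool.Agent.Y110.FJ
open Pool.Agent.Y462.SS (Closed)
open Pool.Agent.N77.CX (rest cmap cmap_simple cmap_injective taut taut_simple C_taut eppa realized_of)
open Pool.Agent.Helper741 (Artin alt map_alt alt_zero)

variable {C : ∀ (G : Type) [Group G], Prop}

theorem amap_equiv_injective {K S : Type} {N : CoxeterMatrix K} {R : CoxeterMatrix S} (e : K ≃ S)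
    (h : ∀ x y, R (e x) (e y) = N x y) : Function.Injective (amap e h) := by
  have h' : ∀ x y, N (e.symm x) (e.symm y) = R x y := by
    intro x y
    rw [← h, e.apply_symm_apply, e.apply_symm_apply]
  refine Function.LeftInverse.injective (g := amap e.symm h') fun x => ?_
  have h1 : (amap e.symm h').comp (amap e h) = MonoidHom.id _ := by
    apply Artin.hom_ext
    intro i
    rw [MonoidHom.comp_apply, amap_gen, amap_gen, e.symm_apply_apply]
    rfl
  exact DFunLike.congr_fun h1 x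

/-- the equivalence with the range -/
noncomputable def re {K B : Type} (e : K → B) (he : Function.Injective e) : K ≃ Set.range e :=
  Equiv.ofInjective e he

theorem re_val {K B : Type} (e : K → B) (he : Function.Injective e) (x : K) : (re e he x).1 = e x := rfl

theorem re_rest {K B : Type} {M : CoxeterMatrix B} (e : K → B)
    (he : Function.Injective e) (N : CoxeterMatrix K) (hN : ∀ x y, M (e x) (e y) = N x y) (x y : K) :
    rest M (Set.range e) (re e he x) (re e he y) = N x y := by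
  rw [← rest_apply, re_val, re_val, hN]

/-- a restriction is isomorphic to the pulled back matrix -/
theorem C_of_range (hC : Closed C) {K B : Type} {M : CoxeterMatrix B} (e : K → B)
    (he : Function.Injective e) (N : CoxeterMatrix K) (hN : ∀ x y, M (e x) (e y) = N x y)
    (h : C (Artin (rest M (Set.range e)))) : C (Artin N) :=
  hC.of_injective _ _ _ (amap_equiv_injective (re e he) (re_rest e he N hN)) h

theorem C_range_of (hC : Closed C) {K B : Type} {M : CoxeterMatrix B} (e : K → B)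
    (he : Function.Injective e) (N : CoxeterMatrix K) (hN : ∀ x y, M (e x) (e y) = N x y)
    (h : C (Artin N)) : C (Artin (rest M (Set.range e))) := by
  refine hC.of_injective _ _ _ (amap_equiv_injective (re e he).symm (fun x y => ?_)) h
  rw [← re_rest e he N hN, Equiv.apply_symm_apply, Equiv.apply_symm_apply]

theorem ex_supp {B : Type} {M : CoxeterMatrix B} (x : Artin M) : ∃ J : Set B, J.Finite ∧ x ∈ pr M J := by
  induction x using Artin.induction with
  | one => exact ⟨∅, Set.finite_empty, one_mem _⟩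
  | gen i => exact ⟨{i}, Set.finite_singleton i, gen_mem rfl⟩
  | mul x y hx hy =>
    obtain ⟨J, hJ, h1⟩ := hx
    obtain ⟨J', hJ', h2⟩ := hy
    exact ⟨J ∪ J', hJ.union hJ', mul_mem (pr_mono Set.subset_union_left h1)
      (pr_mono Set.subset_union_right h2)⟩
  | inv x hx =>
    obtain ⟨J, hJ, h1⟩ := hx
    exact ⟨J, hJ, inv_mem h1⟩

theorem ex_supp_fin {B G : Type} [Group G] {M : CoxeterMatrix B} (ι : Artin M →* G) {E : Set G}
    (hE : E.Finite) (hEN : E ⊆ ι.range) :
    ∃ J : Set B, J.Finite ∧ ∀ x ∈ E, ∃ y ∈ pr M J, ι y = x := by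
  induction E, hE using Set.Finite.induction_on with
  | empty => exact ⟨∅, Set.finite_empty, fun x hx => absurd hx (Set.notMem_empty x)⟩
  | @insert a s _ _ ih =>
    obtain ⟨S, hS, h1⟩ := ih (fun x hx => hEN (Set.mem_insert_of_mem _ hx))
    obtain ⟨y, hy⟩ := hEN (Set.mem_insert _ _)
    obtain ⟨S', hS', h2⟩ := ex_supp y
    refine ⟨S ∪ S', hS.union hS', fun x hx => ?_⟩
    rcases hx with rfl | hx
    · exact ⟨y, pr_mono Set.subset_union_right h2, hy⟩
    · obtain ⟨z, hz, h3⟩ := h1 x hx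
      exact ⟨z, pr_mono Set.subset_union_left hz, h3⟩

/-- Artin groups of arbitrary rank -/
theorem C_artin (hC : ClosedE C) (hcox : ∀ (S : Type) (_ : Finite S) (A : CoxeterMatrix S), C A.Group)
    {B : Type} (M : CoxeterMatrix B)
    (h : ∀ K : Set B, K.Finite → (∀ i ∈ K, ∀ j ∈ K, M i j ≠ 0) → C (Artin (rest M K))) :
    C (Artin M) := by
  classical
  have hfin : ∀ F : Finset B, C (Artin (rest M (F : Set B))) := by
    intro F
    refine fin_main hC hcox _ _ rfl _ ?_
    intro K _ e he N hN hN0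
    refine C_of_range hC.base (M := M) (fun x => (e x).1) (Subtype.val_injective.comp he) N
      (fun x y => hN x y) ?_
    refine h _ (Set.finite_range _) ?_
    rintro _ ⟨x, rfl⟩ _ ⟨y, rfl⟩
    have h1 := hN0 x y
    rw [← hN] at h1
    exact h1
  have hf : ∀ (i j : Finset B) (hij : i ≤ j) (x y : ((i : Finset B) : Set B)),
      rest M ((j : Finset B) : Set B) ⟨x.1, hij x.2⟩ ⟨y.1, hij y.2⟩ = rest M ((i : Finset B) : Set B) x y :=
    fun _ _ _ _ _ => rfl
  let f : ∀ i j : Finset B, i ≤ j → Artin (rest M ((i : Finset B) : Set B)) →*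
      Artin (rest M ((j : Finset B) : Set B)) := fun i j hij => amap (fun x => ⟨x.1, hij x.2⟩) (hf i j hij)
  have hfg : ∀ (i j : Finset B) (hij : i ≤ j) (x : ((i : Finset B) : Set B)),
      f i j hij (Artin.gen (rest M ((i : Finset B) : Set B)) x) =
        Artin.gen (rest M ((j : Finset B) : Set B)) ⟨x.1, hij x.2⟩ := fun i j hij x => amap_gen _ _ _
  refine hC.base.colim (Finset B) (fun i j => ⟨i ∪ j, Finset.subset_union_left, Finset.subset_union_right⟩)
    (fun F => Artin (rest M (F : Set B))) f (Artin M) (fun F => inc M F) ?_ ?_ ?_ ?_ ?_ hfin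
  · intro i hi x
    have h1 : f i i hi = MonoidHom.id _ := Artin.hom_ext fun y => hfg i i hi y
    rw [h1]
    rfl
  · intro i j k hij hjk x
    have h1 : (f j k hjk).comp (f i j hij) = f i k (hij.trans hjk) := by
      apply Artin.hom_ext
      intro y
      rw [MonoidHom.comp_apply, hfg, hfg, hfg]
    exact DFunLike.congr_fun h1 x
  · intro i j hij x
    have h1 : (inc M j).comp (f i j hij) = inc M i := by
      apply Artin.hom_ext
      intro y
      rw [MonoidHom.comp_apply, hfg, inc_gen, inc_gen]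
    exact DFunLike.congr_fun h1 x
  · intro y
    obtain ⟨J, hJ, h1⟩ := ex_supp y
    refine ⟨hJ.toFinset, ?_⟩
    have h2 : y ∈ pr M (hJ.toFinset : Set B) := by
      rw [hJ.coe_toFinset]
      exact h1
    exact h2
  · intro i x hx
    refine ⟨i, le_rfl, ?_⟩
    have h1 := (injective_iff_map_eq_one _).1 (inc_injective_fin (M := M) (i : Set B)) x hx
    rw [h1, map_one]

/-- finite standard parabolic subgroups -/
theorem C_rest (hC : Closed C) {B : Type} {M : CoxeterMatrix B} (h : C (Artin M)) (K : Set B)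
    (hK : K.Finite) : C (Artin (rest M K)) := by
  have : Finite K := hK
  exact hC.of_injective _ _ _ (inc_injective_fin (M := M) K) h

/-- **extensions by Artin groups** -/
theorem C_ext (hC : ClosedE C) (hcox : ∀ (S : Type) (_ : Finite S) (A : CoxeterMatrix S), C A.Group)
    {B : Type} {M : CoxeterMatrix B} (hA : C (Artin M)) {G : Type} [Group G] (ι : Artin M →* G)
    (hι : Function.Injective ι) [ι.range.Normal] (hQ : C (G ⧸ ι.range))
    (hconj : ∀ (g : G) (F : Set B), F.Finite → ∃ (a : Artin M) (θ : B → B) (e : Bool), Set.InjOn θ F ∧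
      (∀ i ∈ F, ∀ j ∈ F, M (θ i) (θ j) = M i j) ∧
      ∀ i ∈ F, g * ι (Artin.gen M i) * g⁻¹ = ι (a * Artin.gen M (θ i) ^ (sgz e) * a⁻¹)) : C G := by
  refine Pool.Agent.R779.FJ.t_crit Pool.Agent.Y529.FJ.t_ext
    (Pool.Agent.Y961.FJ.t_perm Pool.Agent.Y529.FJ.t_ext) C hC G ι.range hQ fun g E hE hEN => ?_
  obtain ⟨F, hF, hEF⟩ := ex_supp_fin ι hE hEN
  obtain ⟨a, θ, e, hθ, hMθ, hgθ⟩ := hconj g F hF
  obtain ⟨F2, hF2, haF⟩ := ex_supp a
  obtain ⟨J, hJ⟩ : ∃ J : Set B, J = F ∪ θ '' F ∪ F2 := ⟨_, rfl⟩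
  have hfin : Finite J := by
    rw [hJ]
    exact (hF.union (hF.image _)).union hF2
  have hFJ : F ⊆ J := by
    rw [hJ]
    exact fun x hx => Or.inl (Or.inl hx)
  have hθJ : ∀ i ∈ F, θ i ∈ J := fun i hi => by
    rw [hJ]
    exact Or.inl (Or.inr ⟨i, hi, rfl⟩)
  have hF2J : F2 ⊆ J := by
    rw [hJ]
    exact fun x hx => Or.inr hx
  -- the element acts as a partial isomorphism
  obtain ⟨m, hm⟩ : ∃ m, m = (ι a)⁻¹ * g := ⟨_, rfl⟩
  have hgm : g = ι a * m := by rw [hm, mul_inv_cancel_left]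
  have hmθ : ∀ i ∈ F, m * ι (Artin.gen M i) * m⁻¹ = ι (Artin.gen M (θ i) ^ (sgz e)) := by
    intro i hi
    have h1 := hgθ i hi
    rw [map_mul, map_mul, map_inv] at h1
    rw [hm]
    calc (ι a)⁻¹ * g * ι (Artin.gen M i) * ((ι a)⁻¹ * g)⁻¹
        = (ι a)⁻¹ * (g * ι (Artin.gen M i) * g⁻¹) * ι a := by group
      _ = ι (Artin.gen M (θ i) ^ (sgz e)) := by rw [h1]; group
  obtain ⟨T, _, M', ι', τ, hι', hιM, hτ, hτι⟩ := eppa J (rest M J) {x | x.1 ∈ F}
    (fun x => ⟨θ x.1.1, hθJ _ x.2⟩)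
    (fun x y hxy => Subtype.ext (Subtype.ext (hθ x.2 y.2 (congrArg Subtype.val hxy))))
    (fun x y => hMθ _ x.2 _ y.2)
  have hJC : C (Artin (rest M J)) := C_rest hC.base hA J hfin
  have hXC : C (Artin (rest M' (Set.range ι'))) := C_range_of hC.base ι' hι' _ hιM hJC
  have : Finite (Set.range ι') := Set.finite_range ι'
  obtain ⟨P, _, Φ, p, hP, hΦ, hΦp⟩ := ex_ret' hC (Set.range ι') τ hτ
    (C_taut hC (hcox T inferInstance M') τ hτ) hXC e
  -- the two embeddings of the finitely generated Artin group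
  obtain ⟨α, hα⟩ : ∃ α : Artin (rest M J) →* G, α = ι.comp (inc M J) := ⟨_, rfl⟩
  have hαinj : Function.Injective α := by
    rw [hα]
    exact hι.comp (inc_injective_fin J)
  have hαg : ∀ b : J, α (Artin.gen (rest M J) b) = ι (Artin.gen M b.1) := by
    intro b
    rw [hα]
    show ι (inc M J _) = _
    rw [inc_gen]
  obtain ⟨β, hβ⟩ : ∃ β : Artin (rest M J) →* Artin M', β = amap ι' hιM := ⟨_, rfl⟩
  have hβg : ∀ b : J, β (Artin.gen (rest M J) b) = Artin.gen M' (ι' b) := by
    intro b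
    rw [hβ, amap_gen]
  have hβinj : ∀ x, Φ (β x) = 1 → x = 1 := by
    intro x hx
    have h2 : inc M' (Set.range ι') (amap (re ι' hι') (re_rest ι' hι' _ hιM) x) = β x := by
      rw [hβ, inc, amap_amap _ _ _ _ (fun x y => by rw [re_val, re_val, hιM])]
      rfl
    rw [← h2] at hx
    have h3 := hΦ _ hx
    exact (injective_iff_map_eq_one _).1 (amap_equiv_injective (re ι' hι') (re_rest ι' hι' _ hιM)) x h3
  have key : ∀ x ∈ pr M F, ∃ w w' : Artin (rest M J), α w = ι x ∧ α w' = m * ι x * m⁻¹ ∧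
      β w' = amap τ hτ (sgn M' e (β w)) := by
    rintro _ ⟨y, rfl⟩
    induction y using Artin.induction with
    | one => exact ⟨1, 1, by simp, by simp, by simp⟩
    | gen i =>
      refine ⟨Artin.gen (rest M J) ⟨i.1, hFJ i.2⟩, Artin.gen (rest M J) ⟨θ i.1, hθJ _ i.2⟩ ^ (sgz e),
        ?_, ?_, ?_⟩
      · rw [hαg, inc_gen]
      · rw [map_zpow, hαg, inc_gen, hmθ i.1 i.2, map_zpow]
      · have h1 : τ (ι' ⟨i.1, hFJ i.2⟩) = ι' ⟨θ i.1, hθJ _ i.2⟩ := hτι ⟨⟨i.1, hFJ i.2⟩, i.2⟩
        rw [map_zpow, hβg, hβg, sgn_gen, map_zpow, amap_gen, h1]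
    | mul x y hx hy =>
      obtain ⟨w, w', h1, h2, h3⟩ := hx
      obtain ⟨v, v', h4, h5, h6⟩ := hy
      refine ⟨w * v, w' * v', by rw [map_mul, h1, h4, map_mul, map_mul], ?_,
        by rw [map_mul, map_mul, map_mul, map_mul, h3, h6]⟩
      rw [map_mul, h2, h5, map_mul, map_mul]
      group
    | inv x hx =>
      obtain ⟨w, w', h1, h2, h3⟩ := hx
      refine ⟨w⁻¹, w'⁻¹, by rw [map_inv, h1, map_inv, map_inv], ?_,
        by rw [map_inv, map_inv, map_inv, map_inv, h3]⟩
      rw [map_inv, h2, map_inv, map_inv]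
      group
  have key' : ∀ x ∈ E, ∃ w w' : Artin (rest M J), α w = x ∧ α w' = m * x * m⁻¹ ∧
      β w' = amap τ hτ (sgn M' e (β w)) := by
    intro x hx
    obtain ⟨y, hy, rfl⟩ := hEF x hx
    exact key y hy
  have hES : E ⊆ (α.range : Set G) := by
    intro x hx
    obtain ⟨w, -, h1, -⟩ := key' x hx
    exact ⟨w, h1⟩
  have hnS : ι a ∈ α.range := by
    obtain ⟨y, hy⟩ := pr_mono hF2J haF
    exact ⟨y, by rw [hα, ← hy]; rfl⟩
  have hmE : ∀ x ∈ E, m * x * m⁻¹ ∈ α.range := by
    intro x hx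
    obtain ⟨w, w', h1, h2, -⟩ := key' x hx
    exact ⟨w', h2⟩
  have hsymm : ∀ (w : Artin (rest M J)) (x : G) (hx : x ∈ α.range), α w = x →
      (MonoidHom.ofInjective hαinj).symm ⟨x, hx⟩ = w := by
    intro w x hx hw
    rw [MulEquiv.symm_apply_eq]
    apply Subtype.ext
    exact hw.symm
  refine realized_of α.range hgm hES hnS hmE hP
    ((Φ.comp β).comp (MonoidHom.ofInjective hαinj).symm.toMonoidHom) ?_ p ?_
  · rw [injective_iff_map_eq_one]
    intro x hx
    have h1 := hβinj _ hx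
    exact (MulEquiv.map_eq_one_iff _).1 h1
  · intro x hx
    obtain ⟨w, w', h1, h2, h3⟩ := key' x hx
    show Φ (β ((MonoidHom.ofInjective hαinj).symm _)) = p * Φ (β ((MonoidHom.ofInjective hαinj).symm _)) * p⁻¹
    rw [hsymm w x _ h1, hsymm w' _ _ h2, h3, hΦp]

end Pool.Agent.N6.A
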