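import Pool.Agent.R676.Cox.Geo
import Pool.Agent.Helper741.Exchange

/-!
# Minimal representatives of the cosets of a standard parabolic subgroup
-/

set_option autoImplicit false

namespace Pool.Agent.N6.A

open Pool.Agent.R676.Cox

variable {B W : Type} [Group W] {M : CoxeterMatrix B} (cs : CoxeterSystem M W) (X : Set B)

/-- the standard parabolic subgroup -/
def WX : Subgroup W := Subgroup.closure (cs.simple '' X)

/-- `u` is the shortest element of its coset `W_X u` -/
def Mn (u : W) : Prop := ∀ x ∈ X, 0 ≤ geo cs u⁻¹ (ee x)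

variable {cs X}

theorem simple_mem {x : B} (hx : x ∈ X) : cs.simple x ∈ WX cs X :=
  Subgroup.subset_closure ⟨x, hx, rfl⟩

theorem supp {a : W} (ha : a ∈ WX cs X) (v : B →₀ ℝ) {j : B} (hj : j ∉ X) :
    (geo cs a v) j = v j := by
  classical
  induction ha using Subgroup.closure_induction generalizing v with
  | mem y hy =>
    obtain ⟨x, hx, rfl⟩ := hy
    rw [geo_simple, sg_apply]
    have hne : x ≠ j := fun h => hj (h ▸ hx)
    simp [ee, hne]
  | one => simp
  | mul a b _ _ iha ihb => rw [map_mul, Module.End.mul_apply, iha, ihb]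
  | inv a _ ih =>
    have h := ih (geo cs a⁻¹ v)
    rw [← Module.End.mul_apply, ← map_mul, mul_inv_cancel, map_one, Module.End.one_apply] at h
    exact h.symm

theorem nn {u : W} (hu : Mn cs X u) {v : B →₀ ℝ} (hv : 0 ≤ v) (hs : ∀ j, j ∉ X → v j = 0) :
    0 ≤ geo cs u⁻¹ v := by
  classical
  have h1 : v = v.sum fun j c => c • ee j := by
    conv_lhs => rw [← Finsupp.sum_single v]
    refine Finsupp.sum_congr fun j _ => ?_
    simp [ee]
  rw [h1, Finsupp.sum, map_sum]
  refine Finset.sum_nonneg fun j _ => ?_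
  rw [map_smul]
  by_cases hj : j ∈ X
  · exact smul_nonneg (hv j) (hu j hj)
  · rw [hs j hj, zero_smul]

theorem dich (w : W) (i : B) : 0 ≤ geo cs w (ee i) ∨ geo cs w (ee i) ≤ 0 := by
  rw [geo_nonneg_iff, geo_nonpos_iff]
  rcases cs.length_mul_simple w i with h | h <;> omega

theorem mn_one : Mn cs X 1 := by
  intro x _
  rw [inv_one, map_one, Module.End.one_apply]
  exact ee_nonneg x

/-- for `a` in the parabolic subgroup -/
theorem geo_neg {u a : W} (hu : Mn cs X u) (ha : a ∈ WX cs X) {x : B} (hx : x ∈ X)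
    (h : geo cs a⁻¹ (ee x) ≤ 0) : geo cs (a * u)⁻¹ (ee x) ≤ 0 := by
  have h1 : 0 ≤ - geo cs a⁻¹ (ee x) := neg_nonneg.2 h
  have h2 := nn hu h1 (fun j hj => by
    rw [Finsupp.neg_apply, supp (inv_mem ha) _ hj]
    have hne : x ≠ j := fun h => hj (h ▸ hx)
    simp [ee, hne])
  rw [map_neg, neg_nonneg, ← Module.End.mul_apply, ← map_mul, ← mul_inv_rev] at h2
  exact h2

theorem mn_unique {u a : W} (hu : Mn cs X u) (ha : a ∈ WX cs X) (hau : Mn cs X (a * u)) : a = 1 := by
  classical
  by_contra hne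
  have h1 : ¬ ∀ i, 0 ≤ geo cs a⁻¹ (ee i) := fun h => hne (inv_eq_one.1 (eq_one_of_geo cs _ h))
  push Not at h1
  obtain ⟨i, hi⟩ := h1
  have hi' := (dich (cs := cs) a⁻¹ i).resolve_left hi
  have hX : i ∈ X := by
    by_contra hX
    have h2 := hi' i
    rw [supp (inv_mem ha) _ hX] at h2
    simp [ee] at h2
    exact absurd h2 (by norm_num)
  have h3 := geo_neg hu ha hX hi'
  exact geo_ee_ne_zero cs _ i (le_antisymm h3 (hau i hX))

theorem exists_mn (w : W) : ∃ a ∈ WX cs X, Mn cs X (a * w) := by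
  obtain ⟨⟨a, ha⟩, -, hmin⟩ := WellFounded.has_min
    (measure fun a : WX cs X => cs.length ((a : W) * w)).wf Set.univ ⟨1, trivial⟩
  refine ⟨a, ha, fun x hx => ?_⟩
  rw [geo_nonneg_iff]
  have h1 : cs.length ((a * w)⁻¹ * cs.simple x) = cs.length (cs.simple x * a * w) := by
    rw [← cs.length_inv, mul_inv_rev, cs.inv_simple, inv_inv, mul_assoc]
  have h2 : ¬ cs.length (cs.simple x * a * w) < cs.length (a * w) :=
    hmin ⟨cs.simple x * a, mul_mem (simple_mem hx) ha⟩ trivial
  have h3 := cs.length_simple_mul (a * w) x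
  rw [← mul_assoc] at h3
  rw [h1, cs.length_inv]
  omega

variable (cs X)

/-- the shortest element of the coset `W_X w` -/
noncomputable def rep (w : W) : W := (exists_mn (cs := cs) (X := X) w).choose * w

variable {cs X}

theorem rep_mn (w : W) : Mn cs X (rep cs X w) := (exists_mn (cs := cs) (X := X) w).choose_spec.2

theorem rep_mem (w : W) : rep cs X w * w⁻¹ ∈ WX cs X := by
  rw [rep, mul_inv_cancel_right]
  exact (exists_mn (cs := cs) (X := X) w).choose_spec.1

theorem rep_eq {v w : W} (hv : Mn cs X v) (h : v * w⁻¹ ∈ WX cs X) : rep cs X w = v := by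
  have h1 : rep cs X w * v⁻¹ ∈ WX cs X := by
    have h2 := mul_mem (rep_mem (cs := cs) (X := X) w) (inv_mem h)
    rwa [mul_inv_rev, inv_inv, mul_assoc, inv_mul_cancel_left] at h2
  have h3 := mn_unique hv h1 (by rw [inv_mul_cancel_right]; exact rep_mn w)
  exact mul_inv_eq_one.1 h3

theorem rep_one : rep cs X 1 = 1 := rep_eq mn_one (by simp)

theorem rep_mul {a : W} (ha : a ∈ WX cs X) (w : W) : rep cs X (a * w) = rep cs X w := by
  apply rep_eq (rep_mn w)
  rw [mul_inv_rev, ← mul_assoc]
  exact mul_mem (rep_mem w) (inv_mem ha)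

/-- a step from a shortest element -/
theorem step {u : W} (hu : Mn cs X u) (s : B) :
    Mn cs X (u * cs.simple s) ∨ ∃ x ∈ X, cs.simple x * u = u * cs.simple s := by
  by_cases h : Mn cs X (u * cs.simple s)
  · exact Or.inl h
  right
  unfold Mn at h
  push Not at h
  obtain ⟨x, hx, h⟩ := h
  refine ⟨x, hx, ?_⟩
  have h1 := (dich (cs := cs) (u * cs.simple s)⁻¹ x).resolve_left h
  rw [geo_nonpos_iff] at h1
  have e1 : (u * cs.simple s)⁻¹ * cs.simple x = (cs.simple x * (u * cs.simple s))⁻¹ := by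
    rw [mul_inv_rev (cs.simple x), cs.inv_simple]
  rw [e1, cs.length_inv, cs.length_inv] at h1
  have h2 := hu x hx
  rw [geo_nonneg_iff] at h2
  have e2 : u⁻¹ * cs.simple x = (cs.simple x * u)⁻¹ := by
    rw [mul_inv_rev, cs.inv_simple]
  rw [e2, cs.length_inv, cs.length_inv] at h2
  obtain ⟨ω, hω, hωu⟩ := cs.exists_isReduced u
  have e3 : cs.wordProd (ω ++ [s]) = u * cs.simple s := by
    rw [cs.wordProd_append, ← hωu, cs.wordProd_singleton]
  rw [← e3] at h1
  obtain ⟨j, hj, h3⟩ := Pool.Agent.Helper741.exchange cs (ω ++ [s]) x h1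
  rw [List.length_append, List.length_singleton] at hj
  have hlen : cs.length u = ω.length := by rw [hωu]; exact hω
  by_cases hjω : j < ω.length
  · exfalso
    rw [List.eraseIdx_append_of_lt_length hjω, cs.wordProd_append, cs.wordProd_append, ← hωu,
      ← mul_assoc] at h3
    have h4 := mul_right_cancel h3
    have h5 := cs.length_wordProd_le (ω.eraseIdx j)
    rw [← h4, List.length_eraseIdx_of_lt hjω] at h5
    omega
  · have hj' : j = ω.length := by omega
    rw [List.eraseIdx_append_of_length_le (by omega), hj'] at h3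
    simp only [Nat.sub_self, List.eraseIdx_cons_zero, List.append_nil] at h3
    rw [e3, ← hωu] at h3
    have h4 : cs.simple x * u * cs.simple s = u := by rw [mul_assoc]; exact h3
    calc cs.simple x * u = cs.simple x * u * cs.simple s * cs.simple s := by
          rw [mul_assoc (cs.simple x * u), cs.simple_mul_simple_self, mul_one]
      _ = u * cs.simple s := by rw [h4]

/-- the root -/
theorem root {u : W} (hu : Mn cs X u) {x s : B} (hx : x ∈ X) (h : cs.simple x * u = u * cs.simple s) :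
    ∃ c : ℝ, 0 < c ∧ geo cs u⁻¹ (ee x) = c • ee s := by
  have h1 : sg M s (geo cs u⁻¹ (ee x)) = - geo cs u⁻¹ (ee x) := by
    have e1 : cs.simple s * u⁻¹ = u⁻¹ * cs.simple x := by
      rw [eq_comm, inv_mul_eq_iff_eq_mul, ← mul_assoc, eq_mul_inv_iff_mul_eq]
      exact h
    rw [← geo_simple cs, ← Module.End.mul_apply, ← map_mul, e1, map_mul, Module.End.mul_apply,
      geo_simple, sg_ee_self, map_neg]
  rw [sg_apply] at h1
  obtain ⟨v, hv⟩ : ∃ v, v = geo cs u⁻¹ (ee x) := ⟨_, rfl⟩
  have hv0 : 0 ≤ v := by rw [hv]; exact hu x hx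
  have hvne : v ≠ 0 := by rw [hv]; exact geo_ee_ne_zero cs _ _
  rw [← hv] at h1 ⊢
  have h2 : v = (coroot M s v / 2) • ee s := by
    have h3 : (2 : ℝ) • v = coroot M s v • ee s := by
      rw [two_smul, ← sub_eq_zero]
      have h4 : v + v - coroot M s v • ee s = (v - coroot M s v • ee s) - (-v) := by abel
      rw [h4, h1, sub_self]
    rw [div_eq_inv_mul, mul_smul, ← h3, smul_smul]
    norm_num
  refine ⟨coroot M s v / 2, ?_, h2⟩
  have h4 : 0 ≤ coroot M s v / 2 := by
    have h5 := hv0 s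
    rw [h2] at h5
    simpa [ee] using h5
  rcases h4.lt_or_eq with h | h
  · exact h
  · exfalso
    apply hvne
    rw [h2, ← h, zero_smul]

end Pool.Agent.N6.A
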