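import Pool.Agent.N6.A.VB

/-!
# Virtual Artin groups of spherical and affine type
-/

set_option autoImplicit false

namespace Pool.Agent.N6.A

open Pool.Agent.Y110.FJ
open Pool.Agent.N77.CX (rest)
open Pool.Agent.Helper741 (Artin)

theorem irr_univ {B : Type} {M : CoxeterMatrix B} {K : Set B} (h : Irr M K) :
    Irr (rest M K) Set.univ := by
  obtain ⟨⟨x, hx⟩, h2⟩ := h
  refine ⟨⟨⟨x, hx⟩, trivial⟩, fun L _ hL hL' => ?_⟩
  obtain ⟨y, hy⟩ := hL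
  obtain ⟨z, -, hz⟩ := hL'
  obtain ⟨i, ⟨i', hi', rfl⟩, j, ⟨hj, hjL⟩, hij⟩ := h2 (Subtype.val '' L)
    (by rintro _ ⟨w, -, rfl⟩; exact w.2) ⟨y.1, ⟨y, hy, rfl⟩⟩
    ⟨z.1, z.2, by rintro ⟨w, hw, hwz⟩; exact hz (Subtype.ext hwz ▸ hw)⟩
  refine ⟨i', hi', ⟨j, hj⟩, ⟨trivial, fun h => hjL ⟨_, h, rfl⟩⟩, ?_⟩
  rw [← rest_apply]
  exact hij

variable {C : ∀ (G : Type) [Group G], Prop}

theorem C_psd (hC : ClosedE C) (hcox : ∀ (S : Type) (_ : Finite S) (A : CoxeterMatrix S), C A.Group)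
    (hsa : ∀ (K : Type) (_ : Finite K) (N : CoxeterMatrix K), Psd N → (∀ i j, N i j ≠ 0) →
      Irr N Set.univ → C (Artin N)) {S : Type} (M : CoxeterMatrix S) (hM : Psd M) : C (VA M) := by
  rw [C_va hC hcox]
  intro K hK h0 hirr
  exact hsa K hK _ (psd_rest hM K h0) (fun i j => h0 i.1 i.2 j.1 j.2) (irr_univ hirr)

end Pool.Agent.N6.A
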