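import Pool.Agent.N6.A.Vb

/-!
# Semidirect products of Artin groups and groups of diagram automorphisms
-/

set_option autoImplicit false

namespace Pool.Agent.N6.A

open Pool.Agent.Y110.FJ
open Pool.Agent.Y462.SS (Closed)
open Pool.Agent.N77.CX (rest)
open Pool.Agent.Helper741 (Artin)

section dact

variable {B Q : Type} [Group Q] [MulAction Q B] (M : CoxeterMatrix B)
  (hM : ∀ (q : Q) (x y : B), M (q • x) (q • y) = M x y)

theorem amap_smul (q r : Q) (x : Artin M) :
    amap (fun i => q • i) (hM q) (amap (fun i => r • i) (hM r) x) =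
      amap (fun i => (q * r) • i) (hM (q * r)) x := by
  have h : (amap (fun i => q • i) (hM q)).comp (amap (fun i => r • i) (hM r)) =
      amap (fun i => (q * r) • i) (hM (q * r)) := by
    apply Artin.hom_ext
    intro i
    rw [MonoidHom.comp_apply, amap_gen, amap_gen, amap_gen, mul_smul]
  exact DFunLike.congr_fun h x

theorem amap_one_smul (x : Artin M) : amap (fun i => (1 : Q) • i) (hM 1) x = x := by
  have h : amap (fun i => (1 : Q) • i) (hM 1) = MonoidHom.id _ := by
    apply Artin.hom_ext
    intro i
    rw [amap_gen, one_smul]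
    rfl
  exact DFunLike.congr_fun h x

/-- the action of a group of diagram automorphisms on the Artin group -/
def dact : Q →* MulAut (Artin M) where
  toFun q :=
    { toFun := amap (fun i => q • i) (hM q)
      invFun := amap (fun i => q⁻¹ • i) (hM q⁻¹)
      left_inv := fun x => by
        rw [amap_smul]
        have h : ∀ r : Q, r = 1 → amap (fun i => r • i) (hM r) x = x := by
          rintro r rfl
          exact amap_one_smul M hM x
        exact h _ (inv_mul_cancel q)
      right_inv := fun x => by
        rw [amap_smul]
        have h : ∀ r : Q, r = 1 → amap (fun i => r • i) (hM r) x = x := by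
          rintro r rfl
          exact amap_one_smul M hM x
        exact h _ (mul_inv_cancel q)
      map_mul' := map_mul _ }
  map_one' := by
    ext x
    exact amap_one_smul M hM x
  map_mul' q r := by
    ext x
    exact (amap_smul M hM q r x).symm

theorem dact_gen (q : Q) (i : B) : dact M hM q (Artin.gen M i) = Artin.gen M (q • i) := by
  show amap (fun i => q • i) (hM q) (Artin.gen M i) = _
  rw [amap_gen]

variable {C : ∀ (G : Type) [Group G], Prop}

theorem C_semi (hC : ClosedE C) (hcox : ∀ (S : Type) (_ : Finite S) (A : CoxeterMatrix S), C A.Group)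
    (hA : C (Artin M)) (hQ : C Q) : C (Artin M ⋊[dact M hM] Q) := by
  obtain ⟨ι, hι⟩ : ∃ ι : Artin M →* Artin M ⋊[dact M hM] Q, ι = SemidirectProduct.inl := ⟨_, rfl⟩
  have hr : ι.range = (SemidirectProduct.rightHom : Artin M ⋊[dact M hM] Q →* Q).ker := by
    rw [hι, SemidirectProduct.range_inl_eq_ker_rightHom]
  have hn : ι.range.Normal := by
    rw [hr]
    infer_instance
  have hq : C ((Artin M ⋊[dact M hM] Q) ⧸ ι.range) := by
    refine hC.base.of_injective _ _ (QuotientGroup.lift ι.range SemidirectProduct.rightHom
      (fun x hx => by rw [hr] at hx; exact hx)) ?_ hQ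
    rw [injective_iff_map_eq_one]
    intro x hx
    obtain ⟨y, rfl⟩ := QuotientGroup.mk_surjective x
    rw [QuotientGroup.eq_one_iff, hr]
    exact hx
  refine C_ext hC hcox hA ι (by rw [hι]; exact SemidirectProduct.inl_injective) hq ?_
  intro g F _
  refine ⟨g.left, fun i => g.right • i, true, (MulAction.injective g.right).injOn,
    fun i _ j _ => hM _ _ _, fun i _ => ?_⟩
  rw [hι]
  have h1 : g = SemidirectProduct.inl g.left * SemidirectProduct.inr g.right :=
    (SemidirectProduct.inl_left_mul_inr_right g).symm
  have h2 : (SemidirectProduct.inl (Artin.gen M (g.right • i)) : Artin M ⋊[dact M hM] Q) =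
      SemidirectProduct.inr g.right * SemidirectProduct.inl (Artin.gen M i) *
        (SemidirectProduct.inr g.right)⁻¹ := by
    rw [← dact_gen M hM, SemidirectProduct.inl_aut, map_inv]
  have h3 : Artin.gen M (g.right • i) ^ (sgz true) = Artin.gen M (g.right • i) := by
    rw [sgz, if_pos rfl, zpow_one]
  rw [h3, map_mul, map_mul, map_inv, h2]
  conv_lhs => rw [h1]
  group

end dact

section vb

variable {V Q : Type} [Group Q] [MulAction Q V]

/-- the action on ordered pairs of different elements -/
instance prAct : MulAction Q (Pr V) where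
  smul q p := ⟨(q • p.1.1, q • p.1.2), fun h => p.2 (MulAction.injective q h)⟩
  one_smul p := Subtype.ext (Prod.ext (one_smul Q p.1.1) (one_smul Q p.1.2))
  mul_smul a b p := Subtype.ext (Prod.ext (mul_smul a b p.1.1) (mul_smul a b p.1.2))

theorem pr_smul (q : Q) (p : Pr V) : (q • p).1 = (q • p.1.1, q • p.1.2) := rfl

theorem vbM_smul (q : Q) (e f : Pr V) : vbM V (q • e) (q • f) = vbM V e f := by
  classical
  have h : ∀ a b : V, (q • a = q • b) ↔ (a = b) := fun a b =>
    ⟨fun h => MulAction.injective q h, fun h => by rw [h]⟩
  have h0 : (q • e = q • f) ↔ (e = f) :=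
    ⟨fun h => MulAction.injective q h, fun h => by rw [h]⟩
  rw [vbM_apply, vbM_apply, pr_smul, pr_smul]
  refine if_congr h0 rfl (if_congr ?_ rfl (if_congr ?_ rfl rfl))
  · exact and_congr (not_congr (h _ _)) (and_congr (not_congr (h _ _))
      (and_congr (not_congr (h _ _)) (not_congr (h _ _))))
  · exact or_congr (and_congr (h _ _) (not_congr (h _ _))) (and_congr (h _ _) (not_congr (h _ _)))

end vb

end Pool.Agent.N6.A
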