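import Pool.Agent.N6.A.Virt
import Pool.Agent.N6.A.Conj

/-!
# Virtual Artin groups by generators and relations
-/

set_option autoImplicit false

namespace Pool.Agent.N6.A

open Pool.Agent.R676.Cox
open Pool.Agent.Y110.FJ
open Pool.Agent.Y462.SS (Closed)
open Pool.Agent.N77.CX (rest)
open Pool.Agent.Helper741 (Artin alt map_alt)
open CoxeterSystem (alternatingWord)

section pres

variable {S : Type} (M : CoxeterMatrix S)

/-- The defining relations of the virtual Artin group. The generators `σ_s` are `Sum.inl s`, the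
generators `τ_s` are `Sum.inr s`; the label `∞` is `0`.
(1) `σ_s σ_t σ_s ⋯ = σ_t σ_s σ_t ⋯` with `M s t` factors;
(2) `(τ_s τ_t) ^ M s t = 1`;
(3) for `s ≠ t` with finite label, `P σ_s = σ_r P`, where `P = ⋯ τ_t τ_s τ_t` is the alternating product of
`M s t - 1` factors that ends with `τ_t`, and `r` is `s` if `M s t` is even and `t` if it is odd. -/
def vaRels : Set (FreeGroup (S ⊕ S)) :=
  {r | ∃ s t : S, r = alt (FreeGroup.of (Sum.inl s)) (FreeGroup.of (Sum.inl t)) (M s t) *
    (alt (FreeGroup.of (Sum.inl t)) (FreeGroup.of (Sum.inl s)) (M s t))⁻¹} ∪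
  {r | ∃ s t : S, r = (FreeGroup.of (Sum.inr s) * FreeGroup.of (Sum.inr t)) ^ M s t} ∪
  {r | ∃ s t : S, s ≠ t ∧ M s t ≠ 0 ∧
    r = ((alternatingWord s t (M s t - 1)).map fun x => FreeGroup.of (Sum.inr x)).prod *
      FreeGroup.of (Sum.inl s) * (FreeGroup.of (Sum.inl (if Even (M s t) then s else t)) *
        ((alternatingWord s t (M s t - 1)).map fun x => FreeGroup.of (Sum.inr x)).prod)⁻¹}

/-- the virtual Artin group -/
abbrev VA : Type := PresentedGroup (vaRels M)

/-- the generators `σ_s` -/
def sgm (s : S) : VA M := PresentedGroup.of (Sum.inl s)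

/-- the generators `τ_s` -/
def tau (s : S) : VA M := PresentedGroup.of (Sum.inr s)

theorem mk_list (l : List S) (f : S → FreeGroup (S ⊕ S)) {G : Type} [Group G]
    (φ : FreeGroup (S ⊕ S) →* G) : φ (l.map f).prod = (l.map fun x => φ (f x)).prod := by
  rw [map_list_prod, List.map_map]
  rfl

theorem va_r1 (s t : S) : alt (sgm M s) (sgm M t) (M s t) = alt (sgm M t) (sgm M s) (M s t) := by
  have h : PresentedGroup.mk (vaRels M) (alt (FreeGroup.of (Sum.inl s)) (FreeGroup.of (Sum.inl t)) (M s t) *
    (alt (FreeGroup.of (Sum.inl t)) (FreeGroup.of (Sum.inl s)) (M s t))⁻¹) = 1 :=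
    PresentedGroup.one_of_mem (Or.inl (Or.inl ⟨s, t, rfl⟩))
  rw [map_mul, map_inv, mul_inv_eq_one, map_alt, map_alt] at h
  exact h

theorem va_r2 (s t : S) : (tau M s * tau M t) ^ M s t = 1 := by
  have h : PresentedGroup.mk (vaRels M) ((FreeGroup.of (Sum.inr s) * FreeGroup.of (Sum.inr t)) ^ M s t) = 1 :=
    PresentedGroup.one_of_mem (Or.inl (Or.inr ⟨s, t, rfl⟩))
  rw [map_pow, map_mul] at h
  exact h

theorem va_r3 (s t : S) (hst : s ≠ t) (h0 : M s t ≠ 0) :
    ((alternatingWord s t (M s t - 1)).map (tau M)).prod * sgm M s =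
      sgm M (if Even (M s t) then s else t) * ((alternatingWord s t (M s t - 1)).map (tau M)).prod := by
  have h : PresentedGroup.mk (vaRels M) _ = 1 :=
    PresentedGroup.one_of_mem (Or.inr ⟨s, t, hst, h0, rfl⟩)
  rw [map_mul, map_mul, map_inv, mul_inv_eq_one, map_mul, mk_list] at h
  exact h

variable {M}

/-- the universal property -/
def vaLift {G : Type} [Group G] (f g : S → G)
    (h1 : ∀ s t, alt (f s) (f t) (M s t) = alt (f t) (f s) (M s t))
    (h2 : ∀ s t, (g s * g t) ^ M s t = 1)
    (h3 : ∀ s t, s ≠ t → M s t ≠ 0 → ((alternatingWord s t (M s t - 1)).map g).prod * f s =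
      f (if Even (M s t) then s else t) * ((alternatingWord s t (M s t - 1)).map g).prod) :
    VA M →* G :=
  PresentedGroup.toGroup (f := Sum.elim f g) (by
    rintro r ((⟨s, t, rfl⟩ | ⟨s, t, rfl⟩) | ⟨s, t, hst, h0, rfl⟩)
    · rw [map_mul, map_inv, mul_inv_eq_one, map_alt, map_alt, FreeGroup.lift_apply_of,
        FreeGroup.lift_apply_of]
      exact h1 s t
    · rw [map_pow, map_mul, FreeGroup.lift_apply_of, FreeGroup.lift_apply_of]
      exact h2 s t
    · rw [map_mul, map_mul, map_inv, mul_inv_eq_one, map_mul, mk_list, FreeGroup.lift_apply_of,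
        FreeGroup.lift_apply_of]
      have h4 : ((alternatingWord s t (M s t - 1)).map fun x => FreeGroup.lift (Sum.elim f g)
          (FreeGroup.of (Sum.inr x))) = (alternatingWord s t (M s t - 1)).map g := by
        refine List.map_congr_left fun x _ => ?_
        rw [FreeGroup.lift_apply_of]
        rfl
      rw [h4]
      exact h3 s t hst h0)

theorem vaLift_sgm {G : Type} [Group G] (f g : S → G)
    (h1 : ∀ s t, alt (f s) (f t) (M s t) = alt (f t) (f s) (M s t))
    (h2 : ∀ s t, (g s * g t) ^ M s t = 1)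
    (h3 : ∀ s t, s ≠ t → M s t ≠ 0 → ((alternatingWord s t (M s t - 1)).map g).prod * f s =
      f (if Even (M s t) then s else t) * ((alternatingWord s t (M s t - 1)).map g).prod) (s : S) :
    vaLift f g h1 h2 h3 (sgm M s) = f s := by
  simp [vaLift, sgm]

theorem vaLift_tau {G : Type} [Group G] (f g : S → G)
    (h1 : ∀ s t, alt (f s) (f t) (M s t) = alt (f t) (f s) (M s t))
    (h2 : ∀ s t, (g s * g t) ^ M s t = 1)
    (h3 : ∀ s t, s ≠ t → M s t ≠ 0 → ((alternatingWord s t (M s t - 1)).map g).prod * f s =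
      f (if Even (M s t) then s else t) * ((alternatingWord s t (M s t - 1)).map g).prod) (s : S) :
    vaLift f g h1 h2 h3 (tau M s) = g s := by
  simp [vaLift, tau]

theorem va_ext {G : Type} [Group G] {f g : VA M →* G} (h1 : ∀ s, f (sgm M s) = g (sgm M s))
    (h2 : ∀ s, f (tau M s) = g (tau M s)) : f = g := by
  apply PresentedGroup.ext
  rintro (s | s)
  · exact h1 s
  · exact h2 s

end pres

section iso

variable {S : Type} {M : CoxeterMatrix S}

theorem wordProd_eq (l : List S) : M.toCoxeterSystem.wordProd l =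
    (l.map M.toCoxeterSystem.simple).prod := rfl

theorem smul_srt_mix {s t : S} (hst : s ≠ t) (h0 : M s t ≠ 0) :
    M.toCoxeterSystem.wordProd (alternatingWord s t (M s t - 1)) • srt M s =
      srt M (if Even (M s t) then s else t) :=
  Subtype.ext (geo_mix M.toCoxeterSystem hst h0)

/-- conjugation in the semidirect product -/
theorem inr_conj (w : M.Group) (β : Rts M) :
    (SemidirectProduct.inr w : VArt M) * SemidirectProduct.inl (Artin.gen (rtM M) β) =
      SemidirectProduct.inl (Artin.gen (rtM M) (w • β)) * SemidirectProduct.inr w := by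
  have h : (SemidirectProduct.inl (Artin.gen (rtM M) (w • β)) : VArt M) =
      SemidirectProduct.inr w * SemidirectProduct.inl (Artin.gen (rtM M) β) *
        (SemidirectProduct.inr w)⁻¹ := by
    rw [← dact_gen (rtM M) rtM_smul, SemidirectProduct.inl_aut, map_inv]
  rw [h, inv_mul_cancel_right]

/-- the homomorphism to the semidirect product -/
noncomputable def toV (M : CoxeterMatrix S) : VA M →* VArt M :=
  vaLift (fun s => SemidirectProduct.inl (Artin.gen (rtM M) (srt M s)))
    (fun s => SemidirectProduct.inr (M.toCoxeterSystem.simple s))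
    (fun s t => by
      rw [← map_alt, ← map_alt, ← rtM_simple (M := M) s t, Artin.rel])
    (fun s t => by
      rw [← map_mul, ← map_pow, M.toCoxeterSystem.simple_mul_simple_pow, map_one])
    (fun s t hst h0 => by
      have h : ((alternatingWord s t (M s t - 1)).map fun s =>
          (SemidirectProduct.inr (M.toCoxeterSystem.simple s) : VArt M)).prod =
          SemidirectProduct.inr (M.toCoxeterSystem.wordProd (alternatingWord s t (M s t - 1))) := by
        rw [wordProd_eq, map_list_prod, List.map_map]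
        rfl
      rw [h, inr_conj, smul_srt_mix hst h0])

theorem toV_sgm (s : S) : toV M (sgm M s) = SemidirectProduct.inl (Artin.gen (rtM M) (srt M s)) :=
  vaLift_sgm _ _ _ _ _ s

theorem toV_tau (s : S) : toV M (tau M s) = SemidirectProduct.inr (M.toCoxeterSystem.simple s) :=
  vaLift_tau _ _ _ _ _ s

/-- the Coxeter group in the virtual Artin group -/
def ofW (M : CoxeterMatrix S) : M.Group →* VA M := M.toCoxeterSystem.lift ⟨tau M, fun s t => va_r2 M s t⟩

theorem ofW_simple (s : S) : ofW M (M.toCoxeterSystem.simple s) = tau M s :=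
  CoxeterSystem.lift_apply_simple _ _ _

theorem ofW_wordProd (l : List S) : ofW M (M.toCoxeterSystem.wordProd l) = (l.map (tau M)).prod := by
  rw [wordProd_eq, map_list_prod, List.map_map]
  congr 1

/-- the element of a root -/
noncomputable def el' (β : Rts M) : VA M :=
  ofW M β.2.choose * sgm M β.2.choose_spec.choose * (ofW M β.2.choose)⁻¹

theorem conj_va (v : M.Group) (s t : S) (h : v • srt M s = srt M t) :
    ofW M v * sgm M s * (ofW M v)⁻¹ = sgm M t := by
  refine conj_simple M.toCoxeterSystem (ofW M) (sgm M) (fun s t hst h0 => ?_) _ v rfl s t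
    (congrArg Subtype.val h)
  rw [ofW_wordProd]
  exact va_r3 M s t hst h0

theorem el'_smul (w : M.Group) (s : S) :
    el' (w • srt M s) = ofW M w * sgm M s * (ofW M w)⁻¹ := by
  obtain ⟨β, hβ⟩ : ∃ β, β = w • srt M s := ⟨_, rfl⟩
  rw [← hβ]
  have h1 := β.2.choose_spec.choose_spec
  obtain ⟨u, hu⟩ : ∃ u, u = β.2.choose := ⟨_, rfl⟩
  obtain ⟨t, ht⟩ : ∃ t, t = β.2.choose_spec.choose := ⟨_, rfl⟩
  rw [← ht] at h1
  unfold el'
  rw [← ht, ← hu]
  have h2 : u • srt M t = w • srt M s := by
    rw [← hβ]
    apply Subtype.ext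
    rw [← h1, hu]
    rfl
  have h3 : (w⁻¹ * u) • srt M t = srt M s := by rw [mul_smul, h2, inv_smul_smul]
  rw [← conj_va _ _ _ h3, map_mul, map_inv]
  group

theorem exists_smul (β : Rts M) : ∃ (w : M.Group) (s : S), w • srt M s = β := by
  obtain ⟨v, w, s, h⟩ := β
  exact ⟨w, s, Subtype.ext h⟩

theorem el'_conj (w : M.Group) (β : Rts M) : el' (w • β) = ofW M w * el' β * (ofW M w)⁻¹ := by
  obtain ⟨u, s, rfl⟩ := exists_smul β
  rw [← mul_smul, el'_smul, el'_smul, map_mul]
  group

theorem conj_alt {G : Type} [Group G] (g a b : G) (m : ℕ) :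
    alt (g * a * g⁻¹) (g * b * g⁻¹) m = g * alt a b m * g⁻¹ := by
  have h := map_alt (MulAut.conj g).toMonoidHom a b m
  exact h.symm

/-- the homomorphism from the Artin group of the root system -/
noncomputable def ofA (M : CoxeterMatrix S) : Artin (rtM M) →* VA M :=
  Artin.lift el' (fun β γ => by
    by_cases h : rtM M β γ = 0
    · rw [h, Pool.Agent.Helper741.alt_zero, Pool.Agent.Helper741.alt_zero]
    · obtain ⟨w, s, t, h1, h2, h3⟩ := Lb_of h
      rw [← h3, ← h1, ← h2, el'_smul, el'_smul, conj_alt, conj_alt, va_r1])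

theorem ofA_gen (β : Rts M) : ofA M (Artin.gen (rtM M) β) = el' β := Artin.lift_gen _ _ _

theorem ofA_conj (w : M.Group) (x : Artin (rtM M)) :
    ofA M (dact (rtM M) rtM_smul w x) = ofW M w * ofA M x * (ofW M w)⁻¹ := by
  have h : (ofA M).comp (dact (rtM M) rtM_smul w).toMonoidHom =
      (MulAut.conj (ofW M w)).toMonoidHom.comp (ofA M) := by
    apply Artin.hom_ext
    intro β
    show ofA M (dact (rtM M) rtM_smul w (Artin.gen (rtM M) β)) =
      ofW M w * ofA M (Artin.gen (rtM M) β) * (ofW M w)⁻¹
    rw [dact_gen, ofA_gen, ofA_gen, el'_conj]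
  exact DFunLike.congr_fun h x

/-- the inverse homomorphism -/
noncomputable def ofV (M : CoxeterMatrix S) : VArt M →* VA M :=
  SemidirectProduct.lift (ofA M) (ofW M) (fun w => MonoidHom.ext fun x => ofA_conj w x)

theorem ofV_toV (x : VA M) : ofV M (toV M x) = x := by
  have h : (ofV M).comp (toV M) = MonoidHom.id _ := by
    apply va_ext
    · intro s
      rw [MonoidHom.comp_apply, toV_sgm, ofV, SemidirectProduct.lift_inl, ofA_gen]
      have h1 := el'_smul (M := M) 1 s
      rw [one_smul, map_one, one_mul, inv_one, mul_one] at h1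
      exact h1
    · intro s
      rw [MonoidHom.comp_apply, toV_tau, ofV, SemidirectProduct.lift_inr, ofW_simple]
      rfl
  exact DFunLike.congr_fun h x

theorem toV_injective : Function.Injective (toV M) :=
  Function.LeftInverse.injective (g := ofV M) ofV_toV

theorem toV_ofW (w : M.Group) : toV M (ofW M w) = SemidirectProduct.inr w := by
  have h : (toV M).comp (ofW M) = SemidirectProduct.inr := by
    apply M.toCoxeterSystem.ext_simple
    intro i
    rw [MonoidHom.comp_apply, ofW_simple, toV_tau]
  exact DFunLike.congr_fun h w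

theorem toV_ofA (x : Artin (rtM M)) : toV M (ofA M x) = SemidirectProduct.inl x := by
  have h : (toV M).comp (ofA M) = SemidirectProduct.inl := by
    apply Artin.hom_ext
    intro β
    rw [MonoidHom.comp_apply, ofA_gen]
    obtain ⟨w, s, rfl⟩ := exists_smul β
    rw [el'_smul, map_mul, map_mul, map_inv, toV_ofW, toV_sgm, inr_conj, mul_inv_cancel_right]
  exact DFunLike.congr_fun h x

/-- the isomorphism -/
noncomputable def vaEquiv (M : CoxeterMatrix S) : VA M ≃* VArt M :=
  MulEquiv.ofBijective (toV M) ⟨toV_injective, fun x => by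
    refine ⟨ofA M x.left * ofW M x.right, ?_⟩
    rw [map_mul, toV_ofA, toV_ofW]
    exact SemidirectProduct.inl_left_mul_inr_right x⟩

theorem ofA_injective : Function.Injective (ofA M) := by
  intro x y h
  have h1 := congrArg (toV M) h
  rw [toV_ofA, toV_ofA] at h1
  exact SemidirectProduct.inl_injective h1

end iso

section main

variable {C : ∀ (G : Type) [Group G], Prop}

/-- virtual Artin groups -/
theorem C_va (hC : ClosedE C) (hcox : ∀ (S : Type) (_ : Finite S) (A : CoxeterMatrix S), C A.Group)
    {S : Type} (M : CoxeterMatrix S) : C (VA M) ↔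
      ∀ K : Set (Rts M), K.Finite → (∀ i ∈ K, ∀ j ∈ K, rtM M i j ≠ 0) → Irr (rtM M) K →
        C (Artin (rest (rtM M) K)) := by
  constructor
  · intro h K hK _ _
    exact C_rest hC.base (hC.base.of_injective _ _ _ (ofA_injective (M := M)) h) K hK
  · intro h
    exact hC.base.of_injective _ _ _ (toV_injective (M := M)) (C_virt hC hcox M h)

end main

end Pool.Agent.N6.A
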