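import Pool.Agent.N6.A.VA

/-!
# The virtual braid groups
-/

set_option autoImplicit false

namespace Pool.Agent.N6.A

open Pool.Agent.R676.Cox
open Pool.Agent.Y110.FJ
open Pool.Agent.Y462.SS (Closed)
open Pool.Agent.N77.CX (rest)
open Pool.Agent.Helper741 (Artin cc)

section pairs

variable {n : ℕ}

/-- the difference of two basis vectors -/
def dd (a b : Fin (n + 1)) : Fin (n + 1) → ℝ := fun x => (if x = a then 1 else 0) - (if x = b then 1 else 0)

theorem dd_symm (σ : Equiv.Perm (Fin (n + 1))) (a b x : Fin (n + 1)) :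
    dd a b (σ.symm x) = dd (σ a) (σ b) x := by
  unfold dd
  have h : ∀ c, (σ.symm x = c) ↔ (x = σ c) := fun c => by rw [Equiv.symm_apply_eq]
  simp only [h]

theorem dd_inj {a b c d : Fin (n + 1)} (hab : a ≠ b) (h : dd a b = dd c d) :
    a = c ∧ b = d := by
  have h1 := congrFun h a
  have h2 := congrFun h b
  unfold dd at h1 h2
  constructor
  · by_contra hac
    rw [if_pos rfl, if_neg hab, if_neg hac] at h1
    split_ifs at h1 <;> norm_num at h1
  · by_contra hbd
    rw [if_pos rfl, if_neg hab.symm, if_neg hbd] at h2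
    split_ifs at h2 <;> norm_num at h2

variable (n) in
/-- the linear map to the permutation representation -/
noncomputable def PL : (Fin n →₀ ℝ) →ₗ[ℝ] (Fin (n + 1) → ℝ) :=
  Finsupp.linearCombination ℝ (fun i : Fin n => dd i.castSucc i.succ)

theorem PL_ee (i : Fin n) : PL n (ee i) = dd i.castSucc i.succ := by
  simp [PL, ee]

theorem A_apply (i j : Fin n) : CoxeterMatrix.A n i j =
    if i = j then 1 else (if (j : ℕ) + 1 = i ∨ (i : ℕ) + 1 = j then 3 else 2) := rfl

theorem PL_sg (i : Fin n) (v : Fin n →₀ ℝ) (x : Fin (n + 1)) :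
    PL n (sg (CoxeterMatrix.A n) i v) x = PL n v (Equiv.swap i.castSucc i.succ x) := by
  induction v using Finsupp.induction_linear with
  | zero => simp
  | add f g hf hg => rw [map_add, map_add, map_add, Pi.add_apply, Pi.add_apply, hf, hg]
  | single j a =>
    have h1 : (Finsupp.single j a : Fin n →₀ ℝ) = a • ee j := by simp [ee]
    rw [h1, map_smul, map_smul, map_smul, Pi.smul_apply, Pi.smul_apply, sg_ee, map_add, map_smul,
      PL_ee, PL_ee, Pi.add_apply, Pi.smul_apply, smul_eq_mul]
    congr 1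
    rw [cc, A_apply]
    by_cases hij : j = i
    · subst hij
      rw [if_pos rfl]
      have h2 : Real.cos (Real.pi / ((1 : ℕ) : ℝ)) = -1 := by simp
      rw [h2]
      unfold dd
      rw [Equiv.swap_apply_def]
      have hne : j.castSucc ≠ j.succ := by
        intro h
        have := congrArg Fin.val h
        simp at this
      split_ifs <;> simp_all <;> norm_num
    · rw [if_neg hij]
      have hne : ¬ ((j : ℕ) = (i : ℕ)) := fun h => hij (Fin.ext h)
      split_ifs with h3
      · have h2 : Real.cos (Real.pi / ((3 : ℕ) : ℝ)) = 1 / 2 := by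
          have := Real.cos_pi_div_three
          exact_mod_cast this
        rw [h2]
        unfold dd
        rw [Equiv.swap_apply_def]
        simp only [Fin.ext_iff, Fin.val_castSucc, Fin.val_succ]
        split_ifs <;> (try simp only [Fin.val_castSucc, Fin.val_succ] at *) <;>
          first | omega | norm_num
      · have h2 : Real.cos (Real.pi / ((2 : ℕ) : ℝ)) = 0 := by
          have := Real.cos_pi_div_two
          exact_mod_cast this
        rw [h2]
        unfold dd
        rw [Equiv.swap_apply_def]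
        simp only [Fin.ext_iff, Fin.val_castSucc, Fin.val_succ]
        split_ifs <;> (try simp only [Fin.val_castSucc, Fin.val_succ] at *) <;>
          first | omega | norm_num

theorem PL_geo (w : (CoxeterMatrix.A n).Group) : ∃ σ : Equiv.Perm (Fin (n + 1)), ∀ v x,
    PL n (geo (CoxeterMatrix.A n).toCoxeterSystem w v) x = PL n v (σ.symm x) := by
  induction w using (CoxeterMatrix.A n).toCoxeterSystem.simple_induction_left with
  | one => exact ⟨1, fun v x => by rw [map_one, Module.End.one_apply]; rfl⟩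
  | mul_simple_left w i ih =>
    obtain ⟨σ, hσ⟩ := ih
    refine ⟨σ.trans (Equiv.swap i.castSucc i.succ), fun v x => ?_⟩
    rw [map_mul, Module.End.mul_apply, geo_simple, PL_sg, hσ]
    rfl

theorem ne_cs (s : Fin n) : (s.castSucc, s.succ).1 ≠ (s.castSucc, s.succ).2 := by
  intro h
  have := congrArg Fin.val h
  simp at this

/-- the ordered pair of a simple root -/
def sp (s : Fin n) : Pr (Fin (n + 1)) := ⟨(s.castSucc, s.succ), ne_cs s⟩

theorem ex_pair (β : Rts (CoxeterMatrix.A n)) :
    ∃ p : Pr (Fin (n + 1)), PL n β.1 = dd p.1.1 p.1.2 := by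
  obtain ⟨w, s, rfl⟩ := exists_smul β
  obtain ⟨σ, hσ⟩ := PL_geo w
  refine ⟨σ • sp s, ?_⟩
  funext x
  show PL n (geo _ w (ee s)) x = _
  rw [hσ, PL_ee, dd_symm]
  rfl

/-- the ordered pair of a root -/
noncomputable def pair (β : Rts (CoxeterMatrix.A n)) : Pr (Fin (n + 1)) := (ex_pair β).choose

theorem pair_eq {β : Rts (CoxeterMatrix.A n)} {p : Pr (Fin (n + 1))} (h : PL n β.1 = dd p.1.1 p.1.2) :
    pair β = p := by
  have h1 := (ex_pair β).choose_spec
  obtain ⟨h2, h3⟩ := dd_inj (pair β).2 (h1.symm.trans h)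
  exact Subtype.ext (Prod.ext h2 h3)

theorem vbM_sp (s t : Fin n) : vbM (Fin (n + 1)) (sp s) (sp t) = CoxeterMatrix.A n s t := by
  classical
  rw [vbM_apply, A_apply]
  by_cases hst : s = t
  · rw [if_pos (by rw [hst]), if_pos hst]
  · have hst' : ¬ ((s : ℕ) = (t : ℕ)) := fun h => hst (Fin.ext h)
    have hsp : sp s ≠ sp t := by
      intro h
      have h1 := congrArg (fun p => (p.1.1 : ℕ)) h
      exact hst' h1
    rw [if_neg hsp, if_neg hst]
    have e1 : (sp s).1.1 = s.castSucc := rfl
    have e2 : (sp s).1.2 = s.succ := rfl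
    have e3 : (sp t).1.1 = t.castSucc := rfl
    have e4 : (sp t).1.2 = t.succ := rfl
    rw [e1, e2, e3, e4]
    by_cases h : (t : ℕ) + 1 = s ∨ (s : ℕ) + 1 = t
    · rw [if_pos h, if_neg, if_pos]
      · simp only [Fin.ext_iff, ne_eq, Fin.val_castSucc, Fin.val_succ]
        omega
      · simp only [Fin.ext_iff, ne_eq, Fin.val_castSucc, Fin.val_succ]
        omega
    · rw [if_neg h, if_pos]
      simp only [Fin.ext_iff, ne_eq, Fin.val_castSucc, Fin.val_succ]
      omega

theorem pair_label {β γ : Rts (CoxeterMatrix.A n)} (h : rtM (CoxeterMatrix.A n) β γ ≠ 0) :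
    vbM (Fin (n + 1)) (pair β) (pair γ) = rtM (CoxeterMatrix.A n) β γ := by
  obtain ⟨w, s, t, h1, h2, h3⟩ := Lb_of h
  obtain ⟨σ, hσ⟩ := PL_geo w
  have key : ∀ r : Fin n, pair (w • srt (CoxeterMatrix.A n) r) = σ • sp r := by
    intro r
    apply pair_eq
    funext x
    show PL n (geo _ w (ee r)) x = _
    rw [hσ, PL_ee, dd_symm]
    rfl
  rw [← h3, ← h1, ← h2, key, key, vbM_smul, vbM_sp]

end pairs

variable {C : ∀ (G : Type) [Group G], Prop}

/-- virtual braid groups -/
theorem C_vbraid (hC : ClosedE C) (hcox : ∀ (S : Type) (_ : Finite S) (A : CoxeterMatrix S), C A.Group)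
    (hcyc : ∀ n : ℕ, 3 ≤ n → C (Artin (cyc n))) (n : ℕ) : C (VA (CoxeterMatrix.A n)) := by
  rw [C_va hC hcox]
  intro K hK h0 _
  have hlab : ∀ x y : K, vbM (Fin (n + 1)) (pair x.1) (pair y.1) =
      rest (rtM (CoxeterMatrix.A n)) K x y := fun x y => pair_label (h0 x.1 x.2 y.1 y.2)
  have hinj : Function.Injective (fun x : K => pair x.1) := by
    intro x y hxy
    by_contra hne
    have h1 := hlab x y
    have hxy' : pair x.1 = pair y.1 := hxy
    rw [hxy', (vbM (Fin (n + 1))).diagonal] at h1
    exact (rest (rtM (CoxeterMatrix.A n)) K).off_diagonal x y hne h1.symm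
  have : Finite K := hK
  exact C_of_range hC.base (fun x : K => pair x.1) hinj _ hlab
    (C_rest hC.base (C_vb hC hcox hcyc (Fin (n + 1))) _ (Set.finite_range _))

end Pool.Agent.N6.A
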