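import Pool.Agent.N6.A.Irr

/-!
# The Artin groups of the virtual braid groups
-/

set_option autoImplicit false

namespace Pool.Agent.N6.A

open Pool.Agent.Y110.FJ
open Pool.Agent.Y462.SS (Closed)
open Pool.Agent.N77.CX (rest)
open Pool.Agent.Helper741 (Artin)
open MulAction Subgroup Function

/-- ordered pairs of different elements -/
abbrev Pr (V : Type) : Type := {p : V × V // p.1 ≠ p.2}

open Classical in
/-- The Coxeter matrix on ordered pairs of different elements: `(a, b)` and `(c, d)` have label `2` if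
`a, b, c, d` are different, `(a, b)` and `(b, c)` have label `3` if `a, b, c` are different, and all
other labels of different pairs are `∞`. -/
noncomputable def vbM (V : Type) : CoxeterMatrix (Pr V) where
  M := Matrix.of fun e f =>
    if e = f then 1
    else if e.1.1 ≠ f.1.1 ∧ e.1.1 ≠ f.1.2 ∧ e.1.2 ≠ f.1.1 ∧ e.1.2 ≠ f.1.2 then 2
    else if (e.1.2 = f.1.1 ∧ e.1.1 ≠ f.1.2) ∨ (f.1.2 = e.1.1 ∧ f.1.1 ≠ e.1.2) then 3
    else 0
  isSymm := by
    ext e f
    simp only [Matrix.transpose_apply, Matrix.of_apply]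
    have h1 : (f = e) = (e = f) := propext ⟨fun h => h.symm, fun h => h.symm⟩
    have h2 : (f.1.1 ≠ e.1.1 ∧ f.1.1 ≠ e.1.2 ∧ f.1.2 ≠ e.1.1 ∧ f.1.2 ≠ e.1.2) =
        (e.1.1 ≠ f.1.1 ∧ e.1.1 ≠ f.1.2 ∧ e.1.2 ≠ f.1.1 ∧ e.1.2 ≠ f.1.2) :=
      propext ⟨fun h => ⟨h.1.symm, h.2.2.1.symm, h.2.1.symm, h.2.2.2.symm⟩,
        fun h => ⟨h.1.symm, h.2.2.1.symm, h.2.1.symm, h.2.2.2.symm⟩⟩
    have h3 : ((f.1.2 = e.1.1 ∧ f.1.1 ≠ e.1.2) ∨ (e.1.2 = f.1.1 ∧ e.1.1 ≠ f.1.2)) =
        ((e.1.2 = f.1.1 ∧ e.1.1 ≠ f.1.2) ∨ (f.1.2 = e.1.1 ∧ f.1.1 ≠ e.1.2)) :=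
      propext or_comm
    simp only [h1, h2, h3]
  diagonal := by simp
  off_diagonal := by
    intro e f h
    simp only [Matrix.of_apply, if_neg h]
    split_ifs <;> norm_num

open Classical in
theorem vbM_apply {V : Type} (e f : Pr V) : vbM V e f =
    if e = f then 1
    else if e.1.1 ≠ f.1.1 ∧ e.1.1 ≠ f.1.2 ∧ e.1.2 ≠ f.1.1 ∧ e.1.2 ≠ f.1.2 then 2
    else if (e.1.2 = f.1.1 ∧ e.1.1 ≠ f.1.2) ∨ (f.1.2 = e.1.1 ∧ f.1.1 ≠ e.1.2) then 3
    else 0 := rfl

open Classical in
/-- The Coxeter matrix of the cycle of length `n`: neighbours have label `3`, all other pairs of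
different elements have label `2`. For `n ≥ 3` it is the affine type `Ã_{n-1}`. -/
noncomputable def cyc (n : ℕ) : CoxeterMatrix (ZMod n) where
  M := Matrix.of fun i j => if i = j then 1 else if i = j + 1 ∨ j = i + 1 then 3 else 2
  isSymm := by
    ext i j
    simp only [Matrix.transpose_apply, Matrix.of_apply]
    have h1 : (j = i) = (i = j) := propext ⟨fun h => h.symm, fun h => h.symm⟩
    have h2 : (j = i + 1 ∨ i = j + 1) = (i = j + 1 ∨ j = i + 1) := propext or_comm
    simp only [h1, h2]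
  diagonal := by simp
  off_diagonal := by
    intro i j h
    simp only [Matrix.of_apply, if_neg h]
    split_ifs <;> norm_num

open Classical in
theorem cyc_apply (n : ℕ) (i j : ZMod n) :
    cyc n i j = if i = j then 1 else if i = j + 1 ∨ j = i + 1 then 3 else 2 := rfl

section comb

variable {V : Type} {K : Set (Pr V)}

/-- consecutive pairs -/
def Nx (x y : K) : Prop := x.1.1.2 = y.1.1.1

variable (hK0 : ∀ i ∈ K, ∀ j ∈ K, vbM V i j ≠ 0)

include hK0

theorem nx_not_symm {x y : K} (h : Nx x y) : ¬ Nx y x := by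
  intro h'
  have hne : x.1 ≠ y.1 := by
    intro he
    unfold Nx at h
    rw [← he] at h
    exact x.1.2 h.symm
  apply hK0 x.1 x.2 y.1 y.2
  rw [vbM_apply, if_neg hne, if_neg, if_neg]
  · rintro (⟨-, h2⟩ | ⟨-, h2⟩)
    · exact h2 h'.symm
    · exact h2 h.symm
  · rintro ⟨-, -, h3, -⟩
    exact h3 h

theorem nx_ne {x y : K} (h : Nx x y) : x ≠ y := by
  intro he
  subst he
  exact nx_not_symm hK0 h h

theorem src_inj {x y : K} (h : x.1.1.1 = y.1.1.1) : x = y := by
  by_contra hne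
  have hne' : x.1 ≠ y.1 := fun h => hne (Subtype.ext h)
  apply hK0 x.1 x.2 y.1 y.2
  rw [vbM_apply, if_neg hne', if_neg, if_neg]
  · rintro (⟨h2, -⟩ | ⟨h2, -⟩)
    · exact x.1.2 (h.trans h2.symm)
    · exact y.1.2 (h.symm.trans h2.symm)
  · rintro ⟨h3, -⟩
    exact h3 h

theorem tgt_inj {x y : K} (h : x.1.1.2 = y.1.1.2) : x = y := by
  by_contra hne
  have hne' : x.1 ≠ y.1 := fun h => hne (Subtype.ext h)
  apply hK0 x.1 x.2 y.1 y.2
  rw [vbM_apply, if_neg hne', if_neg, if_neg]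
  · rintro (⟨h2, -⟩ | ⟨h2, -⟩)
    · exact y.1.2 (h2.symm.trans h)
    · exact x.1.2 (h2.symm.trans h.symm)
  · rintro ⟨-, -, -, h3⟩
    exact h3 h

theorem vbM_K {x y : K} (hne : x ≠ y) : (vbM V x.1 y.1 = 3 ∧ (Nx x y ∨ Nx y x)) ∨
    (vbM V x.1 y.1 = 2 ∧ ¬ Nx x y ∧ ¬ Nx y x) := by
  have hne' : x.1 ≠ y.1 := fun h => hne (Subtype.ext h)
  have h0 := hK0 x.1 x.2 y.1 y.2
  rw [vbM_apply, if_neg hne'] at h0 ⊢
  split_ifs at h0 ⊢ with h1 h2
  · right
    exact ⟨rfl, h1.2.2.1, h1.2.1.symm⟩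
  · left
    refine ⟨rfl, ?_⟩
    rcases h2 with h2 | h2
    · exact Or.inl h2.1
    · exact Or.inr h2.1
  · exact absurd rfl h0

/-- the classification of the irreducible subsets without label `∞` -/
theorem ex_cyc (hfin : K.Finite) (hirr : Irr (vbM V) K) :
    ∃ n : ℕ, 3 ≤ n ∧ ∃ φ : K → ZMod n, Function.Injective φ ∧
      ∀ x y : K, cyc n (φ x) (φ y) = vbM V x.1 y.1 := by
  classical
  have : Finite K := hfin
  -- the permutation
  obtain ⟨ρ, hρ⟩ : ∃ ρ : Equiv.Perm K, ∀ x y : K, Nx x y → ρ x = y := by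
    let D : Set K := {x | ∃ y : K, Nx x y}
    let f : D → K := fun x => x.2.choose
    have hf : ∀ x : D, Nx x.1 (f x) := fun x => x.2.choose_spec
    have hinj : Function.Injective f := by
      intro x y hxy
      apply Subtype.ext
      apply tgt_inj hK0
      have h1 := hf x
      have h2 := hf y
      unfold Nx at h1 h2
      rw [h1, h2, hxy]
    refine ⟨Equiv.extendSubtype (Equiv.ofInjective f hinj), fun x y hxy => ?_⟩
    have hx : x ∈ D := ⟨y, hxy⟩
    rw [Equiv.extendSubtype_apply_of_mem _ _ hx]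
    show f ⟨x, hx⟩ = y
    apply src_inj hK0
    have h1 := hf ⟨x, hx⟩
    unfold Nx at h1 hxy
    rw [← h1, hxy]
  -- irreducibility
  have hirr' : ∀ L : Set K, L.Nonempty → (∀ x ∈ L, ∀ y : K, y ∉ L → ¬ Nx x y ∧ ¬ Nx y x) →
      ∀ x : K, x ∈ L := by
    intro L hL h x
    by_contra hx
    obtain ⟨i, ⟨⟨i', hi', rfl⟩, ⟨j, hj, hij⟩⟩⟩ := hirr.2 (Subtype.val '' L)
      (by rintro _ ⟨y, -, rfl⟩; exact y.2) (hL.image _)
      ⟨x.1, x.2, by rintro ⟨y, hy, hyx⟩; exact hx (Subtype.ext hyx ▸ hy)⟩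
    obtain ⟨hjK, hjL⟩ := hj
    have hjL' : (⟨j, hjK⟩ : K) ∉ L := fun h => hjL ⟨_, h, rfl⟩
    have hne : i' ≠ (⟨j, hjK⟩ : K) := fun h => hjL' (h ▸ hi')
    have h1 := h i' hi' ⟨j, hjK⟩ hjL'
    rcases vbM_K hK0 hne with ⟨-, h2 | h2⟩ | ⟨h2, -⟩
    · exact h1.1 h2
    · exact h1.2 h2
    · exact hij h2
  -- the orbit is everything
  have horb : ∀ x0 x : K, ∃ k : ℤ, (ρ ^ k) x0 = x := by
    intro x0
    refine hirr' {x | ∃ k : ℤ, (ρ ^ k) x0 = x} ⟨x0, 0, rfl⟩ ?_
    rintro x ⟨k, hk⟩ y hy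
    refine ⟨fun h => hy ⟨k + 1, ?_⟩, fun h => hy ⟨k - 1, ?_⟩⟩
    · rw [add_comm, zpow_add, zpow_one, Equiv.Perm.mul_apply, hk, hρ x y h]
    · rw [sub_eq_add_neg, add_comm, zpow_add, zpow_neg_one, Equiv.Perm.mul_apply, hk, ← hρ y x h]
      exact ρ.symm_apply_apply y
  -- the coordinate
  have hcoord : ∀ x0 : K, ∃ (p : ℕ) (E : K → ZMod p), p ≠ 0 ∧ Function.Injective E ∧ E x0 = 0 ∧
      ∀ x, E (ρ x) = E x + 1 := by
    intro x0
    have hmem : ∀ x : K, x ∈ orbit (zpowers ρ) x0 := by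
      intro x
      obtain ⟨k, hk⟩ := horb x0 x
      exact ⟨⟨ρ ^ k, zpow_mem (mem_zpowers ρ) k⟩, hk⟩
    have hEk : ∀ (k : ℤ) (x : K), (ρ ^ k) x0 = x → orbitZPowersEquiv ρ x0 ⟨x, hmem x⟩ = (k : ZMod _) := by
      intro k x hk
      rw [← Equiv.eq_symm_apply, orbitZPowersEquiv_symm_apply']
      apply Subtype.ext
      show x = ((⟨ρ, mem_zpowers ρ⟩ : zpowers ρ) ^ k) • x0
      rw [← hk]
      rfl
    refine ⟨minimalPeriod (ρ • ·) x0, fun x => orbitZPowersEquiv ρ x0 ⟨x, hmem x⟩,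
      (NeZero.ne _), ?_, ?_, ?_⟩
    · intro x y hxy
      exact congrArg Subtype.val ((orbitZPowersEquiv ρ x0).injective hxy)
    · have h := hEk 0 x0 rfl
      rw [Int.cast_zero] at h
      exact h
    · intro x
      obtain ⟨k, hk⟩ := horb x0 x
      show orbitZPowersEquiv ρ x0 ⟨ρ x, hmem (ρ x)⟩ = orbitZPowersEquiv ρ x0 ⟨x, hmem x⟩ + 1
      rw [hEk k x hk, hEk (k + 1) (ρ x) (by rw [add_comm, zpow_add, zpow_one, Equiv.Perm.mul_apply, hk])]
      push_cast
      rfl
  by_cases hall : ∀ x : K, Nx x (ρ x)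
  · -- a cycle
    obtain ⟨x0, hx0⟩ := hirr.1
    obtain ⟨p, E, hp, hE, -, hEρ⟩ := hcoord ⟨x0, hx0⟩
    refine ⟨p, ?_, E, hE, ?_⟩
    · have h1 : p ≠ 1 := by
        rintro rfl
        have h2 : ρ ⟨x0, hx0⟩ = ⟨x0, hx0⟩ := hE (Subsingleton.elim _ _)
        exact nx_ne hK0 (hall ⟨x0, hx0⟩) h2.symm
      have h2 : p ≠ 2 := by
        rintro rfl
        have h3 : ρ (ρ ⟨x0, hx0⟩) = ⟨x0, hx0⟩ := by
          apply hE
          rw [hEρ, hEρ, add_assoc]
          have h4 : (1 + 1 : ZMod 2) = 0 := by decide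
          rw [h4, add_zero]
        have h5 := hall (ρ ⟨x0, hx0⟩)
        rw [h3] at h5
        exact nx_not_symm hK0 (hall ⟨x0, hx0⟩) h5
      omega
    · intro x y
      by_cases hxy : x = y
      · subst hxy
        rw [(cyc p).diagonal, (vbM V).diagonal]
      · have hExy : E x ≠ E y := fun h => hxy (hE h)
        rw [cyc_apply, if_neg hExy]
        rcases vbM_K hK0 hxy with ⟨h1, h2⟩ | ⟨h1, h2, h3⟩
        · rw [h1, if_pos]
          rcases h2 with h2 | h2
          · right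
            rw [← hρ x y h2, hEρ]
          · left
            rw [← hρ y x h2, hEρ]
        · rw [h1, if_neg]
          rintro (h4 | h4)
          · rw [← hEρ] at h4
            exact h3 (hE h4 ▸ hall y)
          · rw [← hEρ] at h4
            exact h2 (hE h4 ▸ hall x)
  · -- a path
    push Not at hall
    obtain ⟨z, hz⟩ := hall
    obtain ⟨p, E, hp, hE, hE0, hEρ⟩ := hcoord (ρ z)
    have : NeZero p := ⟨hp⟩
    let v : K → ℕ := fun x => (E x).val
    have hv : ∀ x, v x = (E x).val := fun _ => rfl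
    have hvlt : ∀ x, v x < p := fun x => ZMod.val_lt _
    have hvinj : ∀ x y, v x = v y → x = y := fun x y h => hE (ZMod.val_injective p h)
    have hEz : E z + 1 = 0 := by rw [← hEρ, hE0]
    have hvz : v z + 1 = p := by
      have h1 : ((v z + 1 : ℕ) : ZMod p) = 0 := by
        push_cast
        rw [hv, ZMod.natCast_zmod_val, hEz]
      rw [ZMod.natCast_eq_zero_iff] at h1
      have h2 := Nat.le_of_dvd (Nat.succ_pos _) h1
      have h3 := hvlt z
      omega
    have hvρ : ∀ x, x ≠ z → v (ρ x) = v x + 1 := by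
      intro x hx
      have h1 : v x ≠ v z := fun h => hx (hvinj _ _ h)
      have h2 := hvlt x
      have h3 : v x + 1 < p := by omega
      have h4 : E (ρ x) = ((v x + 1 : ℕ) : ZMod p) := by
        rw [hEρ]
        push_cast
        rw [hv, ZMod.natCast_zmod_val]
      rw [hv (ρ x), h4, ZMod.val_natCast_of_lt h3]
    have hzn : ∀ y, ¬ Nx z y := fun y hy => hz (by rw [hρ z y hy]; exact hy)
    have hall' : ∀ x, x ≠ z → Nx x (ρ x) := by
      intro z' hz'
      by_contra hn
      have hn' : ∀ y, ¬ Nx z' y := fun y hy => hn (by rw [hρ z' y hy]; exact hy)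
      have h1 := hirr' {x | v x ≤ v z'} ⟨z', le_refl (v z')⟩ (by
        intro x hx y hy
        have hx' : v x ≤ v z' := hx
        have hy' : ¬ v y ≤ v z' := hy
        refine ⟨fun h => ?_, fun h => ?_⟩
        · have hxz : x ≠ z := fun h' => hzn y (h' ▸ h)
          have h2 := hvρ x hxz
          rw [hρ x y h] at h2
          have h3 : v x = v z' := by omega
          exact hn' y (hvinj _ _ h3 ▸ h)
        · have hyz : y ≠ z := fun h' => hzn x (h' ▸ h)
          have h2 := hvρ y hyz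
          rw [hρ y x h] at h2
          omega) z
      have h2 : v z ≤ v z' := h1
      have h3 := hvlt z'
      exact hz' (hvinj _ _ (by omega))
    have hcast : ∀ a b : ℕ, a < p + 2 → b < p + 2 → ((a : ZMod (p + 2)) = (b : ZMod (p + 2)) ↔ a = b) := by
      intro a b ha hb
      constructor
      · intro h
        have h1 := congrArg ZMod.val h
        rwa [ZMod.val_natCast_of_lt ha, ZMod.val_natCast_of_lt hb] at h1
      · rintro rfl
        rfl
    refine ⟨p + 2, by omega, fun x => (v x : ZMod (p + 2)), ?_, ?_⟩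
    · intro x y hxy
      have h1 := hvlt x
      have h2 := hvlt y
      exact hvinj x y ((hcast _ _ (by omega) (by omega)).1 hxy)
    · intro x y
      have h1 := hvlt x
      have h2 := hvlt y
      by_cases hxy : x = y
      · subst hxy
        rw [(cyc (p + 2)).diagonal, (vbM V).diagonal]
      · have hφ : ¬ ((v x : ZMod (p + 2)) = (v y : ZMod (p + 2))) := by
          rw [hcast _ _ (by omega) (by omega)]
          exact fun h => hxy (hvinj _ _ h)
        have e1 : ((v x : ZMod (p + 2)) = (v y : ZMod (p + 2)) + 1) ↔ v x = v y + 1 := by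
          rw [← hcast _ _ (by omega) (by omega)]
          push_cast
          rfl
        have e2 : ((v y : ZMod (p + 2)) = (v x : ZMod (p + 2)) + 1) ↔ v y = v x + 1 := by
          rw [← hcast _ _ (by omega) (by omega)]
          push_cast
          rfl
        rw [cyc_apply, if_neg hφ]
        rcases vbM_K hK0 hxy with ⟨h3, h4⟩ | ⟨h3, h4, h5⟩
        · rw [h3, if_pos]
          rcases h4 with h4 | h4
          · right
            have h6 := hvρ x (fun h' => hzn y (h' ▸ h4))
            rw [hρ x y h4] at h6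
            exact e2.2 h6
          · left
            have h6 := hvρ y (fun h' => hzn x (h' ▸ h4))
            rw [hρ y x h4] at h6
            exact e1.2 h6
        · rw [h3, if_neg]
          rintro (h6 | h6)
          · have h6 := e1.1 h6
            have h7 : y ≠ z := by
              rintro rfl
              omega
            have h8 := hvρ y h7
            have h9 : ρ y = x := hvinj _ _ (by omega)
            exact h5 (h9 ▸ hall' y h7)
          · have h6 := e2.1 h6
            have h7 : x ≠ z := by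
              rintro rfl
              omega
            have h8 := hvρ x h7
            have h9 : ρ x = y := hvinj _ _ (by omega)
            exact h4 (h9 ▸ hall' x h7)

end comb

variable {C : ∀ (G : Type) [Group G], Prop}

/-- the Artin groups of the virtual braid groups -/
theorem C_vb (hC : ClosedE C) (hcox : ∀ (S : Type) (_ : Finite S) (A : CoxeterMatrix S), C A.Group)
    (hcyc : ∀ n : ℕ, 3 ≤ n → C (Artin (cyc n))) (V : Type) : C (Artin (vbM V)) := by
  refine C_artin hC hcox _ fun K hK h0 => C_irr hC.base _ (fun K hK h0 hirr => ?_) _ K rfl hK h0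
  obtain ⟨n, hn, φ, hφ, hφM⟩ := ex_cyc h0 hK hirr
  have : Finite K := hK
  exact C_of_range hC.base φ hφ _ hφM (C_rest hC.base (hcyc n hn) _ (Set.finite_range φ))

end Pool.Agent.N6.A
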