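import Pool.Agent.N6.A.Semi
import Pool.Agent.R676.Cox.Root

/-!
# The Artin groups of the root systems: kernels of virtual Artin groups
-/

set_option autoImplicit false

namespace Pool.Agent.N6.A

open Pool.Agent.R676.Cox
open Pool.Agent.Y110.FJ
open Pool.Agent.Y462.SS (Closed)
open Pool.Agent.N77.CX (rest)
open Pool.Agent.Helper741 (Artin cc cc_self)

section roots

variable {S : Type} (M : CoxeterMatrix S)

/-- the root system of the Coxeter matrix: the images of the simple roots `ee s` -/
def Rts : Type := {v : S →₀ ℝ // IsRt M.toCoxeterSystem v}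

/-- the simple roots -/
noncomputable def srt (s : S) : Rts M := ⟨ee s, isRt_ee _ s⟩

/-- the action of the Coxeter group on the roots -/
noncomputable instance rtsAct : MulAction M.Group (Rts M) where
  smul w β := ⟨geo M.toCoxeterSystem w β.1, β.2.geo w⟩
  one_smul β := Subtype.ext (by
    show geo M.toCoxeterSystem 1 β.1 = β.1
    rw [map_one, Module.End.one_apply])
  mul_smul a b β := Subtype.ext (by
    show geo M.toCoxeterSystem (a * b) β.1 = geo M.toCoxeterSystem a (geo M.toCoxeterSystem b β.1)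
    rw [map_mul, Module.End.mul_apply])

variable {M}

theorem rts_smul (w : M.Group) (β : Rts M) : (w • β).1 = geo M.toCoxeterSystem w β.1 := rfl

/-- The roots `β` and `γ` are the images of the simple roots `s` and `t` under an element of the Coxeter
group, and the label of `s` and `t` is `m`. -/
def Lb (β γ : Rts M) (m : ℕ) : Prop :=
  ∃ (w : M.Group) (s t : S), w • srt M s = β ∧ w • srt M t = γ ∧ M s t = m

theorem Lb.bil {β γ : Rts M} {m : ℕ} (h : Lb β γ m) :
    bil M β.1 γ.1 = -2 * Real.cos (Real.pi / (m : ℝ)) := by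
  obtain ⟨w, s, t, rfl, rfl, rfl⟩ := h
  rw [rts_smul, rts_smul, bil_geo]
  show Pool.Agent.R676.Cox.bil M (ee s) (ee t) = _
  rw [bil_ee_left, coroot_ee, cc]

theorem Lb.ne_one {β γ : Rts M} {m : ℕ} (h : Lb β γ m) (hne : β ≠ γ) : m ≠ 1 := by
  obtain ⟨w, s, t, rfl, rfl, rfl⟩ := h
  exact M.off_diagonal s t (fun hst => hne (by rw [hst]))

theorem cos_inj {m n : ℕ} (h : Real.cos (Real.pi / (m : ℝ)) = Real.cos (Real.pi / (n : ℝ))) : m = n := by
  have hmem : ∀ k : ℕ, Real.pi / (k : ℝ) ∈ Set.Icc 0 Real.pi := by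
    intro k
    refine ⟨div_nonneg Real.pi_pos.le (Nat.cast_nonneg k), ?_⟩
    rcases Nat.eq_zero_or_pos k with rfl | hk
    · simp [Real.pi_pos.le]
    · exact div_le_self Real.pi_pos.le (by exact_mod_cast hk)
  have h1 := Real.injOn_cos (hmem m) (hmem n) h
  rw [div_eq_mul_inv, div_eq_mul_inv] at h1
  have h2 := mul_left_cancel₀ Real.pi_pos.ne' h1
  exact_mod_cast inv_injective h2

theorem Lb.unique {β γ : Rts M} {m n : ℕ} (h : Lb β γ m) (h' : Lb β γ n) : m = n := by
  apply cos_inj
  have h1 := h.bil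
  rw [h'.bil] at h1
  linarith

theorem Lb.symm {β γ : Rts M} {m : ℕ} (h : Lb β γ m) : Lb γ β m := by
  obtain ⟨w, s, t, h1, h2, h3⟩ := h
  exact ⟨w, t, s, h2, h1, by rw [M.symmetric, h3]⟩

theorem Lb.smul {β γ : Rts M} {m : ℕ} (h : Lb β γ m) (w : M.Group) : Lb (w • β) (w • γ) m := by
  obtain ⟨u, s, t, h1, h2, h3⟩ := h
  exact ⟨w * u, s, t, by rw [mul_smul, h1], by rw [mul_smul, h2], h3⟩

theorem Lb.self (β : Rts M) : Lb β β 1 := by
  obtain ⟨v, u, s, h⟩ := β
  exact ⟨u, s, s, Subtype.ext h, Subtype.ext h, M.diagonal s⟩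

variable (M)

open Classical in
/-- The Coxeter matrix on the root system: the label of the images of the simple roots `s` and `t` under
an element of the Coxeter group is the label of `s` and `t`, and the label of all other pairs of roots
is `∞`. -/
noncomputable def rtM : CoxeterMatrix (Rts M) where
  M := Matrix.of fun β γ => if h : ∃ m, Lb β γ m then h.choose else 0
  isSymm := by
    ext β γ
    simp only [Matrix.transpose_apply, Matrix.of_apply]
    by_cases h : ∃ m, Lb β γ m
    · have h' : ∃ m, Lb γ β m := ⟨_, h.choose_spec.symm⟩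
      rw [dif_pos h, dif_pos h']
      exact h'.choose_spec.unique h.choose_spec.symm
    · have h' : ¬ ∃ m, Lb γ β m := fun h' => h ⟨_, h'.choose_spec.symm⟩
      rw [dif_neg h, dif_neg h']
  diagonal := by
    intro β
    have h : ∃ m, Lb β β m := ⟨1, Lb.self β⟩
    simp only [Matrix.of_apply, dif_pos h]
    exact h.choose_spec.unique (Lb.self β)
  off_diagonal := by
    intro β γ hne
    simp only [Matrix.of_apply]
    split_ifs with h
    · exact h.choose_spec.ne_one hne
    · norm_num

variable {M}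

open Classical in
theorem rtM_apply (β γ : Rts M) : rtM M β γ = if h : ∃ m, Lb β γ m then h.choose else 0 := rfl

theorem rtM_of {β γ : Rts M} {m : ℕ} (h : Lb β γ m) : rtM M β γ = m := by
  have h' : ∃ m, Lb β γ m := ⟨m, h⟩
  rw [rtM_apply, dif_pos h']
  exact h'.choose_spec.unique h

theorem Lb_of {β γ : Rts M} (h : rtM M β γ ≠ 0) : Lb β γ (rtM M β γ) := by
  by_cases h' : ∃ m, Lb β γ m
  · obtain ⟨m, hm⟩ := h'
    rw [rtM_of hm]
    exact hm
  · rw [rtM_apply, dif_neg h'] at h
    exact absurd rfl h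

theorem rtM_smul (w : M.Group) (β γ : Rts M) : rtM M (w • β) (w • γ) = rtM M β γ := by
  by_cases h : ∃ m, Lb β γ m
  · obtain ⟨m, hm⟩ := h
    rw [rtM_of hm, rtM_of (hm.smul w)]
  · have h' : ¬ ∃ m, Lb (w • β) (w • γ) m := by
      rintro ⟨m, hm⟩
      have h1 := hm.smul w⁻¹
      rw [inv_smul_smul, inv_smul_smul] at h1
      exact h ⟨m, h1⟩
    rw [rtM_apply, rtM_apply, dif_neg h, dif_neg h']

theorem rtM_simple (s t : S) : rtM M (srt M s) (srt M t) = M s t :=
  rtM_of ⟨1, s, t, one_smul _ _, one_smul _ _, rfl⟩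

end roots

section psd

/-- The matrix with the entries `-cos (π / M i j)` (which is `-1` for the label `∞`, coded by `0`) is
positive semidefinite. -/
def Psd {K : Type} (N : CoxeterMatrix K) : Prop :=
  ∀ v : K →₀ ℝ, 0 ≤ v.sum fun i a => v.sum fun j b => -(a * b * Real.cos (Real.pi / (N i j : ℝ)))

theorem bil_sum {K : Type} (N : CoxeterMatrix K) (v v' : K →₀ ℝ) :
    bil N v v' = 2 * v.sum fun i a => v'.sum fun j b => -(a * b * Real.cos (Real.pi / (N i j : ℝ))) := by
  have h1 : ∀ i, coroot N i v' = v'.sum fun j b => b * (-2 * Real.cos (Real.pi / (N i j : ℝ))) := by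
    intro i
    rw [coroot, Finsupp.linearCombination_apply]
    rfl
  rw [bil, Finsupp.linearCombination_apply, Finsupp.sum, LinearMap.sum_apply, Finsupp.sum,
    Finset.mul_sum]
  refine Finset.sum_congr rfl fun i _ => ?_
  rw [LinearMap.smul_apply, h1, smul_eq_mul, Finsupp.sum, Finsupp.sum, Finset.mul_sum, Finset.mul_sum]
  refine Finset.sum_congr rfl fun j _ => ?_
  ring

theorem psd_iff {K : Type} (N : CoxeterMatrix K) : Psd N ↔ ∀ v : K →₀ ℝ, 0 ≤ bil N v v := by
  constructor
  · intro h v
    rw [bil_sum]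
    have h1 := h v
    positivity
  · intro h v
    have h1 := h v
    rw [bil_sum] at h1
    linarith

variable {S : Type} {M : CoxeterMatrix S}

/-- sets of roots without label `∞` in a semidefinite root system -/
theorem psd_rest (hM : Psd M) (K : Set (Rts M)) (hK : ∀ i ∈ K, ∀ j ∈ K, rtM M i j ≠ 0) :
    Psd (rest (rtM M) K) := by
  rw [psd_iff] at hM ⊢
  intro v
  let L : (K →₀ ℝ) →ₗ[ℝ] (S →₀ ℝ) := Finsupp.linearCombination ℝ (fun β : K => β.1.1)
  have hL : ∀ β : K, L (ee β) = β.1.1 := by
    intro β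
    simp [L, ee]
  have h : ∀ x y : K →₀ ℝ, bil (rest (rtM M) K) x y = bil M (L x) (L y) := by
    intro x y
    induction x using Finsupp.induction_linear with
    | zero => simp [bil]
    | add f g hf hg => rw [bil_add_left, map_add, bil_add_left, hf, hg]
    | single i a =>
      induction y using Finsupp.induction_linear with
      | zero => simp [bil]
      | add f g hf hg => rw [bil_add_right, map_add, bil_add_right, hf, hg]
      | single j b =>
        have h1 : (Finsupp.single i a : K →₀ ℝ) = a • ee i := by simp [ee]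
        have h2 : (Finsupp.single j b : K →₀ ℝ) = b • ee j := by simp [ee]
        rw [h1, h2, map_smul, map_smul, bil_smul_left, bil_smul_right, bil_smul_left, bil_smul_right,
          hL, hL, (Lb_of (hK i.1 i.2 j.1 j.2)).bil, bil_ee_left, coroot_ee, cc, ← rest_apply]
  rw [h]
  exact hM _

end psd

section virt

variable {C : ∀ (G : Type) [Group G], Prop}

/-- Coxeter groups of arbitrary rank -/
theorem C_cox (hC : ClosedE C) (hcox : ∀ (S : Type) (_ : Finite S) (A : CoxeterMatrix S), C A.Group)
    {S : Type} (M : CoxeterMatrix S) : C M.Group := by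
  let _ : MulAction (⊥ : Subgroup M.Group) S :=
    { smul := fun _ s => s
      one_smul := fun _ => rfl
      mul_smul := fun _ _ _ => rfl }
  have htriv : C (M.Group ⧸ (⊤ : Subgroup M.Group)) := by
    refine hC.base.of_injective _ _ (1 : _ →* Multiplicative ℤ) ?_ hC.base.int
    rw [injective_iff_map_eq_one]
    intro x _
    obtain ⟨y, rfl⟩ := QuotientGroup.mk_surjective x
    exact (QuotientGroup.eq_one_iff _).2 trivial
  refine Pool.Agent.N77.CX.cox_main (N := (⊤ : Subgroup M.Group))
    (M.toCoxeterSystem.map Subgroup.topEquiv.symm) hC hcox (⊥ : Subgroup M.Group) ?_ (fun _ _ _ => rfl)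
    ?_ htriv
  · exact top_sup_eq _
  · rintro ⟨m, hm⟩ b
    rw [Subgroup.mem_bot] at hm
    subst hm
    show (1 : M.Group) * _ * (1 : M.Group)⁻¹ = _
    rw [one_mul, inv_one, mul_one]
    rfl

/-- The virtual Artin group, as the semidirect product of the Artin group of the root system and the
Coxeter group. -/
abbrev VArt {S : Type} (M : CoxeterMatrix S) : Type := Artin (rtM M) ⋊[dact (rtM M) rtM_smul] M.Group

theorem C_virt (hC : ClosedE C) (hcox : ∀ (S : Type) (_ : Finite S) (A : CoxeterMatrix S), C A.Group)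
    {S : Type} (M : CoxeterMatrix S)
    (h : ∀ K : Set (Rts M), K.Finite → (∀ i ∈ K, ∀ j ∈ K, rtM M i j ≠ 0) → Irr (rtM M) K →
      C (Artin (rest (rtM M) K))) : C (VArt M) :=
  C_semi (rtM M) rtM_smul hC hcox
    (C_artin hC hcox _ fun K hK h0 => C_irr hC.base _ h _ K rfl hK h0) (C_cox hC hcox M)

end virt

end Pool.Agent.N6.A
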